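import Mathlib

namespace Pool.Agent.H24.Cls

open Ideal

section cl

variable {R : Type*} [CommRing R] [IsDedekindDomain R]

open Classical in
/-- class of an ideal (trivial for the zero ideal) -/
noncomputable def cl (I : Ideal R) : ClassGroup R :=
  if h : I = 0 then 1 else ClassGroup.mk0 ⟨I, mem_nonZeroDivisors_iff_ne_zero.2 h⟩

theorem cl_of_ne {I : Ideal R} (h : I ≠ 0) :
    cl I = ClassGroup.mk0 ⟨I, mem_nonZeroDivisors_iff_ne_zero.2 h⟩ := by
  unfold cl; rw [dif_neg h]

theorem cl_mul {I J : Ideal R} (hI : I ≠ 0) (hJ : J ≠ 0) : cl (I * J) = cl I * cl J := by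
  rw [cl_of_ne hI, cl_of_ne hJ, cl_of_ne (mul_ne_zero hI hJ), ← map_mul]
  rfl

theorem cl_one : cl (1 : Ideal R) = 1 := by
  rw [cl_of_ne one_ne_zero]
  exact map_one ClassGroup.mk0

theorem cl_span (a : R) : cl (span {a}) = 1 := by
  by_cases h : span {a} = (0 : Ideal R)
  · unfold cl; rw [dif_pos h]
  · rw [cl_of_ne h, ClassGroup.mk0_eq_one_iff]
    exact ⟨a, rfl⟩

theorem cl_pow {I : Ideal R} (hI : I ≠ 0) (k : ℕ) : cl (I ^ k) = cl I ^ k := by
  induction k with
  | zero => rw [pow_zero, pow_zero, cl_one]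
  | succ k ih => rw [pow_succ, pow_succ, cl_mul (pow_ne_zero k hI) hI, ih]

theorem cl_prod {ι : Type*} (s : Finset ι) (f : ι → Ideal R) (h : ∀ i ∈ s, f i ≠ 0) :
    cl (∏ i ∈ s, f i) = ∏ i ∈ s, cl (f i) := by
  classical
  induction s using Finset.induction_on with
  | empty => rw [Finset.prod_empty, Finset.prod_empty, cl_one]
  | insert i s hi ih =>
    rw [Finset.prod_insert hi, Finset.prod_insert hi,
      cl_mul (h i (Finset.mem_insert_self i s))
        (Finset.prod_ne_zero_iff.2 (fun j hj => h j (Finset.mem_insert_of_mem hj))),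
      ih (fun j hj => h j (Finset.mem_insert_of_mem hj))]

theorem isPrincipal_of_cl {I : Ideal R} (h : cl I = 1) : ∃ a : R, I = span {a} := by
  by_cases h0 : I = 0
  · exact ⟨0, by rw [h0]; simp⟩
  · rw [cl_of_ne h0, ClassGroup.mk0_eq_one_iff] at h
    obtain ⟨a, ha⟩ := h
    exact ⟨a, ha⟩

end cl

/-- coordinates on a quadratic order -/
structure Quad (R : Type*) [CommRing R] where
  /-- generator -/
  w : R
  /-- trace -/
  t : ℤ
  /-- norm -/
  n : ℤ
  eqn : w * w = t * w - n
  gen : ∀ x : R, ∃ a b : ℤ, x = a + b * w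
  ind : ∀ a b : ℤ, (a : R) + b * w = 0 → a = 0 ∧ b = 0

namespace Quad

variable {R : Type*} [CommRing R] (Q : Quad R)

/-- discriminant -/
def D : ℤ := Q.t ^ 2 - 4 * Q.n

theorem ext {a b c d : ℤ} (h : (a : R) + b * Q.w = c + d * Q.w) : a = c ∧ b = d := by
  have h1 : ((a - c : ℤ) : R) + ((b - d : ℤ) : R) * Q.w = 0 := by
    push_cast; linear_combination h
  obtain ⟨h2, h3⟩ := Q.ind _ _ h1
  constructor <;> omega

theorem not_square [IsDomain R] (d : ℤ) : Q.D ≠ d ^ 2 := by
  intro h
  have h1 : ((2 * Q.w - Q.t - d) * (2 * Q.w - Q.t + d) : R) = 0 := by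
    have h2 : ((Q.t ^ 2 - 4 * Q.n : ℤ) : R) = ((d ^ 2 : ℤ) : R) := by
      rw [← h]; rfl
    push_cast at h2
    linear_combination 4 * Q.eqn + h2
  rcases mul_eq_zero.1 h1 with h2 | h2
  · have h3 : (((- Q.t - d : ℤ)) : R) + ((2 : ℤ) : R) * Q.w = 0 := by
      push_cast; linear_combination h2
    have := (Q.ind _ _ h3).2
    omega
  · have h3 : (((- Q.t + d : ℤ)) : R) + ((2 : ℤ) : R) * Q.w = 0 := by
      push_cast; linear_combination h2
    have := (Q.ind _ _ h3).2
    omega

/-- the basis `1, w` -/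
noncomputable def basis : Module.Basis (Fin 2) ℤ R :=
  Module.Basis.mk (v := ![1, Q.w])
    (by
      rw [Fintype.linearIndependent_iff]
      intro g hg i
      rw [Fin.sum_univ_two] at hg
      simp only [Matrix.cons_val_zero, Matrix.cons_val_one, zsmul_eq_mul, mul_one] at hg
      obtain ⟨h1, h2⟩ := Q.ind _ _ hg
      fin_cases i
      · exact h1
      · exact h2)
    (by
      intro x _
      obtain ⟨a, b, rfl⟩ := Q.gen x
      apply Submodule.add_mem
      · have : (a : R) = a • ((![1, Q.w] : Fin 2 → R) 0) := by simp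
        rw [this]
        apply Submodule.smul_mem
        apply Submodule.subset_span
        exact ⟨0, rfl⟩
      · have : (b : R) * Q.w = b • ((![1, Q.w] : Fin 2 → R) 1) := by simp
        rw [this]
        apply Submodule.smul_mem
        apply Submodule.subset_span
        exact ⟨1, rfl⟩)

theorem basis_zero : Q.basis 0 = 1 := by simp [basis]
theorem basis_one : Q.basis 1 = Q.w := by simp [basis]

theorem repr_eq (a b : ℤ) : Q.basis.repr ((a : R) + b * Q.w) 0 = a ∧
    Q.basis.repr ((a : R) + b * Q.w) 1 = b := by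
  have h : (a : R) + b * Q.w = a • Q.basis 0 + b • Q.basis 1 := by
    rw [basis_zero, basis_one]; simp
  rw [h, map_add, map_smul, map_smul]
  simp

theorem leftMul (a b : ℤ) : Algebra.leftMulMatrix Q.basis ((a : R) + b * Q.w)
    = !![a, -(Q.n * b); b, a + Q.t * b] := by
  have e0 : ((a : R) + b * Q.w) * Q.basis 0 = (a : R) + b * Q.w := by
    rw [basis_zero, mul_one]
  have e1 : ((a : R) + b * Q.w) * Q.basis 1 = ((-(Q.n * b) : ℤ) : R) + ((a + Q.t * b : ℤ) : R) * Q.w := by
    rw [basis_one]; push_cast; linear_combination b * Q.eqn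
  ext i j
  rw [Algebra.leftMulMatrix_eq_repr_mul]
  fin_cases i <;> fin_cases j
  · simp only [Fin.zero_eta, Matrix.of_apply, Matrix.cons_val', Matrix.cons_val_zero]
    rw [e0]; exact (Q.repr_eq a b).1
  · simp only [Fin.zero_eta, Fin.mk_one, Matrix.of_apply, Matrix.cons_val', Matrix.cons_val_zero,
      Matrix.cons_val_one]
    rw [e1]; exact (Q.repr_eq _ _).1
  · simp only [Fin.zero_eta, Fin.mk_one, Matrix.of_apply, Matrix.cons_val', Matrix.cons_val_zero,
      Matrix.cons_val_one]
    rw [e0]; exact (Q.repr_eq a b).2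
  · simp only [Fin.mk_one, Matrix.of_apply, Matrix.cons_val',
      Matrix.cons_val_one]
    rw [e1]; exact (Q.repr_eq _ _).2

theorem norm_eq (a b : ℤ) : Algebra.norm ℤ ((a : R) + b * Q.w) = a ^ 2 + Q.t * a * b + Q.n * b ^ 2 := by
  rw [Algebra.norm_eq_matrix_det Q.basis, Q.leftMul, Matrix.det_fin_two_of]
  ring

theorem trace_eq (a b : ℤ) : Algebra.trace ℤ R ((a : R) + b * Q.w) = 2 * a + Q.t * b := by
  rw [Algebra.trace_eq_matrix_trace Q.basis, Q.leftMul, Matrix.trace_fin_two_of]
  ring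

theorem discr_eq : Algebra.discr ℤ Q.basis = Q.D := by
  rw [Algebra.discr_def, Matrix.det_fin_two]
  simp only [Algebra.traceMatrix_apply, Algebra.traceForm_apply, basis_zero, basis_one, one_mul,
    mul_one]
  have h1 : Algebra.trace ℤ R 1 = 2 := by
    have := Q.trace_eq 1 0
    simpa using this
  have h2 : Algebra.trace ℤ R Q.w = Q.t := by
    have := Q.trace_eq 0 1
    simpa using this
  have h3 : Algebra.trace ℤ R (Q.w * Q.w) = Q.t ^ 2 - 2 * Q.n := by
    have := Q.trace_eq (-Q.n) Q.t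
    rw [show ((-Q.n : ℤ) : R) + Q.t * Q.w = Q.w * Q.w by rw [Q.eqn]; push_cast; ring] at this
    rw [this]; ring
  rw [h1, h2, h3]
  unfold D
  ring

end Quad

end Pool.Agent.H24.Cls
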