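import Mathlib
import Pool.Agent.H24.Cls.Basic

namespace Pool.Agent.H24.Cls

open NumberField Module

theorem exists_quad (K : Type*) [Field K] [NumberField K] (h : finrank ℚ K = 2) :
    ∃ Q : Quad (𝓞 K), Q.D = NumberField.discr K := by
  have hr : finrank ℤ (𝓞 K) = 2 := by rw [RingOfIntegers.rank, h]
  set b : Basis (Fin 2) ℤ (𝓞 K) := Module.finBasisOfFinrankEq ℤ (𝓞 K) hr with hb
  set c0 := b.repr 1 0 with hc0
  set c1 := b.repr 1 1 with hc1
  have h1 : (1 : 𝓞 K) = c0 * b 0 + c1 * b 1 := by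
    have := b.sum_repr 1
    rw [Fin.sum_univ_two] at this
    rw [← this]
    simp [hc0, hc1]
  -- coprimality
  have hcop : IsCoprime c0 c1 := by
    rw [Int.isCoprime_iff_gcd_eq_one]
    set g := Int.gcd c0 c1 with hg
    obtain ⟨x0, hx0⟩ : (g : ℤ) ∣ c0 := Int.gcd_dvd_left _ _
    obtain ⟨x1, hx1⟩ : (g : ℤ) ∣ c1 := Int.gcd_dvd_right _ _
    have h2 : (1 : 𝓞 K) = (algebraMap ℤ (𝓞 K) g) * (x0 * b 0 + x1 * b 1) := by
      rw [h1, hx0, hx1]
      simp only [algebraMap_int_eq, Int.coe_castRingHom]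
      push_cast
      ring
    have h3 : IsUnit (algebraMap ℤ (𝓞 K) g) := IsUnit.of_mul_eq_one _ h2.symm
    have h4 : IsUnit (Algebra.norm ℤ (algebraMap ℤ (𝓞 K) g)) := h3.map (Algebra.norm ℤ)
    rw [Algebra.norm_algebraMap, hr, isUnit_pow_iff (by norm_num), Int.isUnit_iff] at h4
    omega
  obtain ⟨u, v, huv⟩ := hcop
  set w : 𝓞 K := -v * b 0 + u * b 1 with hw
  have hb0 : b 0 = u - c1 * w := by
    have huv' : ((u * c0 + v * c1 : ℤ) : 𝓞 K) = 1 := by rw [huv]; simp
    push_cast at huv'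
    rw [hw]
    linear_combination (-b 0) * huv' - u * h1
  have hb1 : b 1 = v + c0 * w := by
    have huv' : ((u * c0 + v * c1 : ℤ) : 𝓞 K) = 1 := by rw [huv]; simp
    push_cast at huv'
    rw [hw]
    linear_combination (-b 1) * huv' - v * h1
  have hspan : ∀ x : 𝓞 K, ∃ a d : ℤ, x = a + d * w := by
    intro x
    have hx := b.sum_repr x
    rw [Fin.sum_univ_two] at hx
    simp only [zsmul_eq_mul] at hx
    generalize b.repr x 0 = r0 at hx
    generalize b.repr x 1 = r1 at hx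
    refine ⟨r0 * u + r1 * v, -r0 * c1 + r1 * c0, ?_⟩
    push_cast
    linear_combination -hx + r0 * hb0 + r1 * hb1
  have hbind : ∀ r s : ℤ, (r : 𝓞 K) * b 0 + s * b 1 = 0 → r = 0 ∧ s = 0 := by
    intro r s hrs
    have hli := b.linearIndependent
    rw [Fintype.linearIndependent_iff] at hli
    have h2 := hli ![r, s] (by
      rw [Fin.sum_univ_two]
      simpa [zsmul_eq_mul] using hrs)
    exact ⟨h2 0, h2 1⟩
  have hind : ∀ a d : ℤ, (a : 𝓞 K) + d * w = 0 → a = 0 ∧ d = 0 := by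
    intro a d had
    have h2 : ((a * c0 - d * v : ℤ) : 𝓞 K) * b 0 + ((a * c1 + d * u : ℤ) : 𝓞 K) * b 1 = 0 := by
      push_cast
      rw [hw] at had
      linear_combination had - a * h1
    obtain ⟨h3, h4⟩ := hbind _ _ h2
    constructor
    · have : a * (u * c0 + v * c1) = u * (a * c0 - d * v) + v * (a * c1 + d * u) := by ring
      rw [h3, h4, huv] at this
      simpa using this
    · have : d * (u * c0 + v * c1) = -c1 * (a * c0 - d * v) + c0 * (a * c1 + d * u) := by ring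
      rw [h3, h4, huv] at this
      simpa using this
  obtain ⟨A, B, hAB⟩ := hspan (w * w)
  set Q : Quad (𝓞 K) := ⟨w, B, -A, by push_cast; rw [hAB]; ring, hspan, hind⟩ with hQ
  refine ⟨Q, ?_⟩
  rw [← Q.discr_eq, NumberField.discr_eq_discr]

end Pool.Agent.H24.Cls
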