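import Mathlib
import Pool.Agent.H24.Cls.Basic

namespace Pool.Agent.H24.Cls

open Ideal

variable {R : Type*} [CommRing R] [IsDedekindDomain R] [Module.Free ℤ R] [Module.Finite ℤ R]

theorem Quad.finrank (Q : Quad R) : Module.finrank ℤ R = 2 := by
  rw [Module.finrank_eq_card_basis Q.basis]; simp

theorem Quad.absNorm_natCast (Q : Quad R) (p : ℕ) : absNorm (span {(p : R)}) = p ^ 2 := by
  rw [absNorm_span_natCast, Q.finrank]

theorem Quad.natCast_ne (Q : Quad R) {p : ℕ} (hp : p ≠ 0) : (p : R) ≠ 0 := by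
  intro h
  have := (Q.ind p 0 (by push_cast; rw [h]; ring)).1
  exact hp (by exact_mod_cast this)

theorem ne_zero_of_absNorm {I : Ideal R} (h : absNorm I ≠ 0) : I ≠ 0 := by
  rintro rfl
  exact h absNorm_bot

/-- a non-inert rational prime is the product of two ideals of norm `p` -/
theorem Quad.split (Q : Quad R) {p : ℕ} (hp : p.Prime) (h : ¬ (span {(p : R)}).IsPrime) :
    ∃ P P' : Ideal R, span {(p : R)} = P * P' ∧ absNorm P = p ∧ absNorm P' = p := by
  have hne : span {(p : R)} ≠ ⊤ := by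
    intro h1
    have h2 := Q.absNorm_natCast p
    rw [h1, absNorm_top] at h2
    have := hp.one_lt
    nlinarith
  obtain ⟨P, hP, hle⟩ := exists_le_maximal _ hne
  obtain ⟨P', hP'⟩ := dvd_iff_le.2 hle
  have hN := Q.absNorm_natCast p
  rw [hP', map_mul] at hN
  have h1 : absNorm P ≠ 1 := by
    rw [Ne, absNorm_eq_one_iff]; exact hP.ne_top
  have h2 : absNorm P' ≠ 1 := by
    rw [Ne, absNorm_eq_one_iff]
    rintro rfl
    apply h
    rw [hP', mul_top]
    exact hP.isPrime
  obtain ⟨h3, h4⟩ := (Nat.Prime.mul_eq_prime_sq_iff hp h1 h2).1 hN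
  exact ⟨P, P', hP', h3, h4⟩

/-- classification of prime ideals -/
theorem Quad.prime_cases (Q : Quad R) {P : Ideal R} (hP : Prime P) :
    ∃ p : ℕ, p.Prime ∧ ((absNorm P = p ∧ ¬ (span {(p : R)}).IsPrime ∧ P ∣ span {(p : R)}) ∨
      (P = span {(p : R)} ∧ absNorm P = p ^ 2)) := by
  have hP0 : P ≠ ⊥ := hP.ne_zero
  have hPp : P.IsPrime := (prime_iff_isPrime hP0).1 hP
  have hmem := absNorm_mem P
  have hN0 : absNorm P ≠ 0 := by rw [Ne, absNorm_eq_zero_iff]; exact hP0
  have hN1 : absNorm P ≠ 1 := by rw [Ne, absNorm_eq_one_iff]; exact hPp.ne_top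
  -- some prime factor lies in P
  have hex : ∃ p : ℕ, p.Prime ∧ (p : R) ∈ P := by
    have key : ∀ m : ℕ, m ≠ 0 → (m : R) ∈ P → ∃ p : ℕ, p.Prime ∧ (p : R) ∈ P := by
      intro m
      induction m using Nat.recOnMul with
      | zero => intro h; exact absurd rfl h
      | one =>
        intro _ h1
        exfalso
        apply hPp.ne_top
        rw [eq_top_iff_one]
        simpa using h1
      | prime p hp => intro _ h1; exact ⟨p, hp, h1⟩
      | mul a b ha hb =>
        intro h0 h1
        push_cast at h1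
        rcases hPp.mem_or_mem h1 with h2 | h2
        · exact ha (by rintro rfl; simp at h0) h2
        · exact hb (by rintro rfl; simp at h0) h2
    exact key _ hN0 hmem
  obtain ⟨p, hp, hpP⟩ := hex
  have hdvd : P ∣ span {(p : R)} := dvd_span_singleton.2 hpP
  refine ⟨p, hp, ?_⟩
  obtain ⟨P', hP'⟩ := hdvd
  have hN := Q.absNorm_natCast p
  rw [hP', map_mul] at hN
  by_cases h2 : absNorm P' = 1
  · right
    have h3 : P' = ⊤ := absNorm_eq_one_iff.1 h2
    rw [h3, mul_top] at hP'
    rw [h2, mul_one] at hN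
    exact ⟨hP'.symm, hN⟩
  · left
    obtain ⟨h3, h4⟩ := (Nat.Prime.mul_eq_prime_sq_iff hp hN1 h2).1 hN
    refine ⟨h3, ?_, ⟨P', hP'⟩⟩
    intro hpr
    have hpne : span {(p : R)} ≠ ⊥ := by
      rw [Ne, span_singleton_eq_bot]; exact Q.natCast_ne hp.ne_zero
    have hmax : (span {(p : R)}).IsMaximal := hpr.isMaximal hpne
    have hle : span {(p : R)} ≤ P := by
      rw [span_singleton_le_iff_mem]; exact hpP
    have heq := hmax.eq_of_le hPp.ne_top hle
    have h5 := Q.absNorm_natCast p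
    rw [heq, h3] at h5
    have := hp.one_lt
    nlinarith

theorem prime_of_absNorm {P : Ideal R} {p : ℕ} (hp : p.Prime) (h : absNorm P = p) : Prime P := by
  have h0 : P ≠ ⊥ := by
    rintro rfl; rw [absNorm_bot] at h; exact hp.ne_zero h.symm
  rw [prime_iff_isPrime h0]
  apply isPrime_of_irreducible_absNorm
  rw [h]; exact hp

/-- an integer in an ideal of prime norm is divisible by the prime -/
theorem int_mem_of_absNorm {P : Ideal R} {p : ℕ} (hp : p.Prime) (h : absNorm P = p) (c : ℤ)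
    (hc : (c : R) ∈ P) : (p : ℤ) ∣ c := by
  by_contra hcon
  have hpp : Prime (p : ℤ) := Nat.prime_iff_prime_int.1 hp
  have hcop : IsCoprime (p : ℤ) c := (Prime.coprime_iff_not_dvd hpp).2 hcon
  obtain ⟨u, v, huv⟩ := hcop
  have hpP : (p : R) ∈ P := by rw [← h]; exact absNorm_mem P
  have h1 : (1 : R) ∈ P := by
    have h2 : ((u * p + v * c : ℤ) : R) = 1 := by rw [huv]; simp
    rw [← h2]
    push_cast
    exact P.add_mem (P.mul_mem_left _ hpP) (P.mul_mem_left _ hc)
  have h3 : P = ⊤ := (eq_top_iff_one P).2 h1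
  rw [h3, absNorm_top] at h
  exact hp.one_lt.ne h

end Pool.Agent.H24.Cls
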