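import Mathlib
import Pool.Agent.H24.Cls.Primes

namespace Pool.Agent.H24.Cls

open Ideal Finset

/-- The situation: `T` is a finite set of non-inert primes, with ideals `P true p`, `P false p`
above `p`, every prime ideal of norm below `√D / 2` is one of these or principal, and the class
number equals `e ^ #T` with `e` the exponent. -/
structure Data (R : Type*) [CommRing R] [IsDedekindDomain R] [Module.Free ℤ R]
    [Module.Finite ℤ R] where
  q : Quad R
  T : Finset ℕ
  P : Bool → ℕ → Ideal R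
  hp : ∀ p ∈ T, p.Prime
  hspan : ∀ p ∈ T, span {(p : R)} = P true p * P false p
  hnorm : ∀ p ∈ T, ∀ b, absNorm (P b p) = p
  hsmall : ∀ p ∈ T, 4 * (p : ℤ) ^ 2 < q.D
  hprime : ∀ I : Ideal R, Prime I → 4 * (absNorm I : ℤ) ^ 2 < q.D →
    cl I = 1 ∨ ∃ p ∈ T, ∃ b, I = P b p
  hmink : ∀ C : ClassGroup R, ∃ I : Ideal R, I ≠ 0 ∧ cl I = C ∧ 4 * (absNorm I : ℤ) ^ 2 < q.D
  e : ℕ
  he : 2 ≤ e
  hexp : ∀ C : ClassGroup R, C ^ e = 1
  hfin : Finite (ClassGroup R)
  hcard : Nat.card (ClassGroup R) = e ^ #T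

namespace Data

variable {R : Type*} [CommRing R] [IsDedekindDomain R] [Module.Free ℤ R]
    [Module.Finite ℤ R] (d : Data R)

/-- the class of `P true p` -/
noncomputable def g (p : ℕ) : ClassGroup R := cl (d.P true p)

theorem P_ne {p : ℕ} (hp : p ∈ d.T) (b : Bool) : d.P b p ≠ 0 := by
  apply ne_zero_of_absNorm
  rw [d.hnorm p hp b]; exact (d.hp p hp).ne_zero

theorem P_prime {p : ℕ} (hp : p ∈ d.T) (b : Bool) : Prime (d.P b p) :=
  prime_of_absNorm (d.hp p hp) (d.hnorm p hp b)

theorem span_eq {p : ℕ} (hp : p ∈ d.T) (b : Bool) : span {(p : R)} = d.P b p * d.P (!b) p := by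
  cases b
  · rw [d.hspan p hp, mul_comm]; rfl
  · exact d.hspan p hp

theorem cl_false {p : ℕ} (hp : p ∈ d.T) : cl (d.P false p) = (d.g p)⁻¹ := by
  have h := cl_span (R := R) (p : R)
  rw [d.hspan p hp, cl_mul (d.P_ne hp true) (d.P_ne hp false)] at h
  exact (inv_eq_of_mul_eq_one_right h).symm

/-- sign attached to a boolean -/
def sg (b : Bool) : ℤ := if b then 1 else -1

theorem cl_P {p : ℕ} (hp : p ∈ d.T) (b : Bool) : cl (d.P b p) = (d.g p) ^ (sg b) := by
  cases b
  · rw [d.cl_false hp]; simp [sg]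
  · simp [sg, g]

/-- the ideal `∏ P true p ^ (a true p) * P false p ^ (a false p)` -/
noncomputable def mono (a : Bool → ℕ → ℕ) : Ideal R :=
  ∏ p ∈ d.T, (d.P true p ^ a true p * d.P false p ^ a false p)

/-- Key structure lemma for ideals of small norm. -/
theorem factor (I : Ideal R) (hI : I ≠ 0) (hN : 4 * (absNorm I : ℤ) ^ 2 < d.q.D) :
    ∃ a : Bool → ℕ → ℕ, d.mono a ∣ I ∧
      cl I = ∏ p ∈ d.T, (d.g p) ^ ((a true p : ℤ) - (a false p : ℤ)) := by
  induction I using UniqueFactorizationMonoid.induction_on_prime with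
  | h₁ => exact absurd rfl hI
  | h₂ J hJ =>
    rw [Ideal.isUnit_iff] at hJ
    subst hJ
    refine ⟨fun _ _ => 0, ?_, ?_⟩
    · unfold mono
      simp
    · rw [← one_eq_top, cl_one]; simp
  | h₃ J r hJ hr ih =>
    have hr0 : r ≠ 0 := hr.ne_zero
    rw [map_mul] at hN
    have hNr : 1 ≤ absNorm r := Nat.one_le_iff_ne_zero.2 (by
      rw [Ne, absNorm_eq_zero_iff]; exact hr0)
    have hNJ : 1 ≤ absNorm J := Nat.one_le_iff_ne_zero.2 (by
      rw [Ne, absNorm_eq_zero_iff]; exact hJ)
    have h1 : (1 : ℤ) ≤ absNorm r := by exact_mod_cast hNr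
    have h2 : (1 : ℤ) ≤ absNorm J := by exact_mod_cast hNJ
    push_cast at hN
    have hN1 : 4 * (absNorm J : ℤ) ^ 2 < d.q.D := by
      refine lt_of_le_of_lt ?_ hN
      have : (absNorm J : ℤ) ^ 2 ≤ ((absNorm r : ℤ) * (absNorm J : ℤ)) ^ 2 := by
        apply pow_le_pow_left₀ (by omega); nlinarith
      linarith
    have hN2 : 4 * (absNorm r : ℤ) ^ 2 < d.q.D := by
      refine lt_of_le_of_lt ?_ hN
      have : (absNorm r : ℤ) ^ 2 ≤ ((absNorm r : ℤ) * (absNorm J : ℤ)) ^ 2 := by
        apply pow_le_pow_left₀ (by omega); nlinarith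
      linarith
    obtain ⟨a, ha1, ha2⟩ := ih hJ hN1
    rcases d.hprime r hr hN2 with h | ⟨p, hp, b, rfl⟩
    · refine ⟨a, Dvd.dvd.mul_left ha1 r, ?_⟩
      rw [cl_mul hr0 hJ, h, one_mul, ha2]
    · refine ⟨fun b' p' => a b' p' + if b' = b ∧ p' = p then 1 else 0, ?_, ?_⟩
      · have h3 : d.mono (fun b' p' => a b' p' + if b' = b ∧ p' = p then 1 else 0)
            = d.mono a * d.P b p := by
          unfold mono
          have h4 : ∏ p' ∈ d.T, (if p' = p then d.P b p' else 1) = d.P b p := by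
            rw [prod_ite_eq' d.T p (fun p' => d.P b p')]
            rw [if_pos hp]
          rw [← h4, ← prod_mul_distrib]
          apply prod_congr rfl
          intro p' _
          cases b <;> by_cases hpp : p' = p <;> simp [hpp] <;> ring
        rw [h3, mul_comm]
        exact mul_dvd_mul_left _ ha1
      · rw [cl_mul hr0 hJ, ha2, d.cl_P hp]
        have h4 : ∏ p' ∈ d.T, (if p' = p then (d.g p') ^ (sg b) else 1) = (d.g p) ^ (sg b) := by
          rw [prod_ite_eq' d.T p (fun p' => (d.g p') ^ (sg b))]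
          rw [if_pos hp]
        rw [← h4, ← prod_mul_distrib]
        apply prod_congr rfl
        intro p' _
        cases b <;> by_cases hpp : p' = p
        · simp only [hpp, if_true, sg]
          rw [← zpow_add]
          congr 1
          simp
          ring
        · simp [hpp]
        · simp only [hpp, if_true, sg]
          rw [← zpow_add]
          congr 1
          simp
          ring
        · simp [hpp]

/-- every class is a product of powers of the `g p` -/
theorem surj (C : ClassGroup R) : ∃ z : ℕ → ℤ, C = ∏ p ∈ d.T, (d.g p) ^ (z p) := by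
  obtain ⟨I, hI, rfl, hN⟩ := d.hmink C
  obtain ⟨a, _, ha⟩ := d.factor I hI hN
  exact ⟨_, ha⟩

theorem zpow_mod (C : ClassGroup R) (z : ℤ) : C ^ z = C ^ (z % d.e) := by
  conv_lhs => rw [← Int.emod_add_mul_ediv z d.e]
  rw [zpow_add, zpow_mul]
  have : C ^ (d.e : ℤ) = 1 := by
    rw [zpow_natCast]; exact d.hexp C
  rw [this, one_zpow, mul_one]

/-- independence -/
theorem indep (z : ℕ → ℤ) (h : ∏ p ∈ d.T, (d.g p) ^ (z p) = 1) : ∀ p ∈ d.T, (d.e : ℤ) ∣ z p := by
  have hepos : 0 < d.e := by have := d.he; omega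
  have := d.hfin
  have : Fintype (ClassGroup R) := Fintype.ofFinite _
  let ψ : (d.T → Fin d.e) → ClassGroup R := fun c => ∏ p : d.T, (d.g p.1) ^ ((c p : ℕ) : ℤ)
  have red : ∀ z : ℕ → ℤ, ∏ p ∈ d.T, (d.g p) ^ (z p)
      = ψ (fun p => ⟨(z p.1 % d.e).toNat, by
        have h1 := Int.emod_lt_of_pos (z p.1) (show (0 : ℤ) < d.e by exact_mod_cast hepos)
        have h2 := Int.emod_nonneg (z p.1) (show (d.e : ℤ) ≠ 0 by omega)
        omega⟩) := by
    intro z
    simp only [ψ]
    rw [← prod_coe_sort d.T (fun p => (d.g p) ^ (z p))]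
    apply prod_congr rfl
    intro p _
    rw [d.zpow_mod]
    congr 1
    have h2 := Int.emod_nonneg (z p.1) (show (d.e : ℤ) ≠ 0 by omega)
    rw [Int.toNat_of_nonneg h2]
  have hsurj : Function.Surjective ψ := by
    intro C
    obtain ⟨z, hz⟩ := d.surj C
    exact ⟨_, by rw [hz, red z]⟩
  have hbij : Function.Bijective ψ := by
    rw [Fintype.bijective_iff_surjective_and_card]
    refine ⟨hsurj, ?_⟩
    rw [← Nat.card_eq_fintype_card (α := ClassGroup R), d.hcard]
    simp
  intro p hp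
  have h1 : ψ (fun p => ⟨(z p.1 % d.e).toNat, by
        have h1 := Int.emod_lt_of_pos (z p.1) (show (0 : ℤ) < d.e by exact_mod_cast hepos)
        have h2 := Int.emod_nonneg (z p.1) (show (d.e : ℤ) ≠ 0 by omega)
        omega⟩) = ψ (fun _ => ⟨0, hepos⟩) := by
    rw [← red z, h]
    simp [ψ]
  have h2 := hbij.1 h1
  have h3 := congrFun h2 ⟨p, hp⟩
  simp only [Fin.mk.injEq] at h3
  have h4 := Int.emod_nonneg (z p) (show (d.e : ℤ) ≠ 0 by omega)
  apply Int.dvd_of_emod_eq_zero
  omega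

end Data

end Pool.Agent.H24.Cls
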