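import Mathlib
import Pool.Agent.H24.Cls.Exist

namespace Pool.Agent.H24.Cls

open NumberField Module Ideal

theorem complex_zero (K : Type*) [Field K] [NumberField K] (h : finrank ℚ K = 2)
    (hd : 0 < discr K) : InfinitePlace.nrComplexPlaces K = 0 := by
  have h1 := InfinitePlace.card_add_two_mul_card_eq_rank K
  rw [h] at h1
  have h2 := sign_discr K
  rw [Int.sign_eq_one_of_pos hd] at h2
  have h3 : InfinitePlace.nrComplexPlaces K = 0 ∨ InfinitePlace.nrComplexPlaces K = 1 := by omega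
  rcases h3 with h3 | h3
  · exact h3
  · rw [h3] at h2; norm_num at h2

theorem minkowski (K : Type*) [Field K] [NumberField K] (h : finrank ℚ K = 2)
    (hd : 0 < discr K) (C : ClassGroup (𝓞 K)) :
    ∃ I : Ideal (𝓞 K), I ≠ 0 ∧ cl I = C ∧ 4 * (absNorm I : ℤ) ^ 2 < discr K := by
  obtain ⟨I, hI, hI2⟩ := exists_ideal_in_class_of_norm_le C
  have hne : (I : Ideal (𝓞 K)) ≠ 0 := nonZeroDivisors.coe_ne_zero I
  refine ⟨I, hne, ?_, ?_⟩
  · rw [cl_of_ne hne]; exact hI
  · rw [complex_zero K h hd, pow_zero, one_mul, h] at hI2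
    have hdR : (0 : ℝ) < discr K := by exact_mod_cast hd
    have h3 : (2 * (absNorm (I : Ideal (𝓞 K)) : ℝ)) ≤ Real.sqrt |(discr K : ℝ)| := by
      have : ((Nat.factorial 2 : ℕ) : ℝ) / ((2 : ℕ) : ℝ) ^ 2 = 1 / 2 := by norm_num [Nat.factorial]
      rw [this] at hI2
      linarith
    rw [abs_of_pos hdR] at h3
    have h4 : (2 * (absNorm (I : Ideal (𝓞 K)) : ℝ)) ^ 2 ≤ discr K := by
      calc (2 * (absNorm (I : Ideal (𝓞 K)) : ℝ)) ^ 2 ≤ (Real.sqrt (discr K : ℝ)) ^ 2 := by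
            apply pow_le_pow_left₀ (by positivity) h3
        _ = (discr K : ℝ) := Real.sq_sqrt hdR.le
    have h5 : 4 * (absNorm (I : Ideal (𝓞 K)) : ℤ) ^ 2 ≤ discr K := by
      have : ((4 * (absNorm (I : Ideal (𝓞 K)) : ℤ) ^ 2 : ℤ) : ℝ) ≤ discr K := by
        push_cast; linarith
      exact_mod_cast this
    obtain ⟨Q, hQ⟩ := exists_quad K h
    have h6 := Q.not_square (2 * (absNorm (I : Ideal (𝓞 K)) : ℤ))
    rw [hQ] at h6
    refine lt_of_le_of_ne h5 ?_
    intro h7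
    apply h6
    rw [← h7]; ring

end Pool.Agent.H24.Cls
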