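import Mathlib

namespace Pool.Agent.H24.Cls

theorem link (D t n : ℤ) (hD : D = t ^ 2 - 4 * n) (hDpos : 0 < D) (hns : ∀ d : ℤ, D ≠ d ^ 2)
    (a : ℤ) (ha : 0 < a) (haD : 4 * a ^ 2 < D) (m₀ : ℤ) :
    ∃ m : ℤ, a ∣ (m - m₀) ∧ |((2 * m + t : ℤ) : ℝ) - Real.sqrt D| < 2 * a ∧
      4 * (m ^ 2 + t * m + n) ^ 2 < a ^ 2 * D := by
  set s := Real.sqrt D with hs
  have hDR : (0 : ℝ) < D := by exact_mod_cast hDpos
  have hs2 : s ^ 2 = D := Real.sq_sqrt hDR.le
  have hspos : 0 < s := Real.sqrt_pos.2 hDR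
  have haR : (0 : ℝ) < a := by exact_mod_cast ha
  have has : 2 * (a : ℝ) < s := by
    have : (4 * a ^ 2 : ℝ) < D := by exact_mod_cast haD
    rw [← hs2] at this
    nlinarith
  set k := ⌊(s - t - 2 * m₀) / (2 * a)⌋ with hk
  set m := m₀ + a * k with hm
  have h1 : (k : ℝ) * (2 * a) ≤ s - t - 2 * m₀ := by
    rw [← le_div_iff₀ (by positivity)]
    exact Int.floor_le _
  have h2 : s - t - 2 * m₀ < ((k : ℝ) + 1) * (2 * a) := by
    rw [← div_lt_iff₀ (by positivity)]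
    exact Int.lt_floor_add_one _
  set b : ℤ := 2 * m + t with hb
  have hbR : (b : ℝ) = 2 * m₀ + 2 * a * k + t := by
    rw [hb, hm]; push_cast; ring
  have hb1 : (b : ℝ) ≤ s := by rw [hbR]; linarith
  have hb2 : s < b + 2 * a := by rw [hbR]; linarith
  have hb3 : (b : ℝ) ≠ s := by
    intro h
    have : (D : ℝ) = ((b ^ 2 : ℤ) : ℝ) := by rw [← hs2, ← h]; push_cast; ring
    exact hns b (by exact_mod_cast this)
  have hb4 : (b : ℝ) < s := lt_of_le_of_ne hb1 hb3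
  have hb5 : (0 : ℝ) < b := by linarith
  have hF : (4 * (m ^ 2 + t * m + n) : ℤ) = b ^ 2 - D := by rw [hb, hD]; ring
  have hFR : (4 * (((m ^ 2 + t * m + n : ℤ)) : ℝ)) = b ^ 2 - s ^ 2 := by
    rw [hs2]; exact_mod_cast hF
  by_cases hc : s ^ 2 - (b : ℝ) ^ 2 < 2 * a * s
  · refine ⟨m, ⟨k, by rw [hm]; ring⟩, ?_, ?_⟩
    · rw [abs_lt]; constructor <;> linarith
    · have h3 : (4 * (((m ^ 2 + t * m + n : ℤ)) : ℝ) ^ 2) < a ^ 2 * D := by
        rw [← hs2]
        have h4 : (((m ^ 2 + t * m + n : ℤ)) : ℝ) ≤ 0 := by nlinarith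
        have h5 : -(((m ^ 2 + t * m + n : ℤ)) : ℝ) * 2 < a * s := by nlinarith
        have h6 : (-(((m ^ 2 + t * m + n : ℤ)) : ℝ) * 2) ^ 2 < (a * s) ^ 2 :=
          pow_lt_pow_left₀ h5 (by linarith) (by norm_num)
        linarith
      exact_mod_cast h3
  · push Not at hc
    have hu : (a : ℝ) < s - b := by
      by_contra hcon
      push Not at hcon
      have : (s - b) * (s + b) < 2 * a * s := by
        have h7 : (s - b) * (s + b) < (s - b) * (2 * s) := by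
          apply mul_lt_mul_of_pos_left <;> linarith
        have h8 : (s - b) * (2 * s) ≤ a * (2 * s) := by
          apply mul_le_mul_of_nonneg_right <;> linarith
        linarith
      nlinarith
    have hF' : (4 * ((m + a) ^ 2 + t * (m + a) + n) : ℤ) = (b + 2 * a) ^ 2 - D := by
      rw [hb, hD]; ring
    have hFR' : (4 * ((((m + a) ^ 2 + t * (m + a) + n : ℤ)) : ℝ)) = (b + 2 * a) ^ 2 - s ^ 2 := by
      rw [hs2]; exact_mod_cast hF'
    refine ⟨m + a, ⟨k + 1, by rw [hm]; ring⟩, ?_, ?_⟩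
    · have : ((2 * (m + a) + t : ℤ) : ℝ) = b + 2 * a := by rw [hb]; push_cast; ring
      rw [this, abs_lt]; constructor <;> linarith
    · have h3 : (4 * ((((m + a) ^ 2 + t * (m + a) + n : ℤ)) : ℝ) ^ 2) < a ^ 2 * D := by
        rw [← hs2]
        have h4 : 0 ≤ ((((m + a) ^ 2 + t * (m + a) + n : ℤ)) : ℝ) := by nlinarith
        have h5 : ((((m + a) ^ 2 + t * (m + a) + n : ℤ)) : ℝ) * 2 < a * s := by
          have h9 : (b + 2 * a : ℝ) ^ 2 - s ^ 2 < 2 * (a * s) := by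
            have h10 : (a : ℝ) * (a - (s - b)) < 0 := by nlinarith
            nlinarith
          linarith
        have h6 : (((((m + a) ^ 2 + t * (m + a) + n : ℤ)) : ℝ) * 2) ^ 2 < (a * s) ^ 2 :=
          pow_lt_pow_left₀ h5 (by linarith) (by norm_num)
        linarith
      exact_mod_cast h3

end Pool.Agent.H24.Cls
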