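import Mathlib
import Pool.Agent.H24.Cls.Core
import Pool.Agent.H24.Cls.Link

namespace Pool.Agent.H24.Cls

open Ideal Finset

variable {R : Type*} [CommRing R] [IsDedekindDomain R] [Module.Free ℤ R]
    [Module.Finite ℤ R]

/-- If `I ∩ ℤ = (N I)` then every class modulo `I` contains an integer. -/
theorem residue {I : Ideal R} {a : ℕ} (ha : 0 < a) (hN : absNorm I = a)
    (hint : ∀ c : ℤ, (c : R) ∈ I → (a : ℤ) ∣ c) (x : R) : ∃ m : ℤ, x + m ∈ I := by
  have hcard : Nat.card (R ⧸ I) = a := by rw [← hN]; rfl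
  have : Finite (R ⧸ I) := Nat.finite_of_card_ne_zero (by omega)
  let f : Fin a → R ⧸ I := fun i => Ideal.Quotient.mk I ((i : ℕ) : R)
  have hinj : Function.Injective f := by
    intro i j hij
    simp only [f] at hij
    rw [Ideal.Quotient.eq] at hij
    have h1 : (((i : ℕ) : ℤ) - ((j : ℕ) : ℤ) : ℤ) = (((i : ℕ) : ℤ) - ((j : ℕ) : ℤ)) := rfl
    have h2 := hint (((i : ℕ) : ℤ) - ((j : ℕ) : ℤ)) (by push_cast; exact hij)
    have hi := i.2
    have hj := j.2
    apply Fin.ext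
    have h3 := Int.eq_zero_of_abs_lt_dvd h2 (by
      rw [abs_lt]; constructor <;> omega)
    omega
  have hbij := hinj.bijective_of_nat_card_le (by rw [hcard]; simp)
  obtain ⟨i, hi⟩ := hbij.2 (Ideal.Quotient.mk I (-x))
  simp only [f] at hi
  rw [Ideal.Quotient.eq] at hi
  refine ⟨((i : ℕ) : ℤ), ?_⟩
  push_cast
  have : x + ((i : ℕ) : R) = ((i : ℕ) : R) - -x := by ring
  rw [this]; exact hi

theorem norm_w (q : Quad R) (m : ℤ) :
    absNorm (span {q.w + (m : R)}) = (m ^ 2 + q.t * m + q.n).natAbs := by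
  rw [absNorm_span_singleton]
  have h := q.norm_eq m 1
  have e1 : (m : R) + ((1 : ℤ) : R) * q.w = q.w + (m : R) := by push_cast; ring
  rw [e1] at h
  rw [h]
  congr 1
  ring

theorem w_ne_zero (q : Quad R) (m : ℤ) : q.w + (m : R) ≠ 0 := by
  intro h
  have := (q.ind m 1 (by push_cast; linear_combination h)).2
  omega

theorem span_w_ne (q : Quad R) (m : ℤ) : span {q.w + (m : R)} ≠ 0 := by
  intro h
  rw [zero_eq_bot, span_singleton_eq_bot] at h
  exact w_ne_zero q m h

theorem prim (q : Quad R) (m : ℤ) {p : ℕ} (hp : 2 ≤ p) :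
    ¬ (span {(p : R)} ∣ span {q.w + (m : R)}) := by
  intro h
  rw [dvd_span_singleton, mem_span_singleton] at h
  obtain ⟨x, hx⟩ := h
  obtain ⟨a, b, rfl⟩ := q.gen x
  have h1 : ((m : ℤ) : R) + ((1 : ℤ) : R) * q.w = ((p * a : ℤ) : R) + ((p * b : ℤ) : R) * q.w := by
    push_cast; linear_combination hx
  have h2 := (q.ext h1).2
  have h3 : (p : ℤ) ∣ 1 := ⟨b, h2⟩
  have := Int.le_of_dvd (by norm_num) h3
  omega

theorem dvd_both {P P' I : Ideal R} (hP : Prime P) (hP' : Prime P') (hne : P ≠ P') (h : P ∣ I)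
    (h' : P' ∣ I) : P * P' ∣ I := by
  obtain ⟨J, rfl⟩ := h
  rcases hP'.dvd_or_dvd h' with h1 | h1
  · exfalso
    have := (hP'.dvd_prime_iff_associated hP).1 h1
    exact hne (associated_iff_eq.1 this).symm
  · exact mul_dvd_mul_left P h1

theorem not_dvd_of_ne {P P' : Ideal R} (hP : Prime P) (hP' : Prime P') (hne : P ≠ P') :
    ¬ P ∣ P' := by
  intro h1
  have := (hP.dvd_prime_iff_associated hP').1 h1
  exact hne (associated_iff_eq.1 this)

namespace Data

variable (d : Data R)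

theorem D_pos : 0 < d.q.D := by
  obtain ⟨I, _, _, h⟩ := d.hmink 1
  have : 0 ≤ 4 * (absNorm I : ℤ) ^ 2 := by positivity
  omega

theorem dvd_mono {p : ℕ} (hp : p ∈ d.T) (a : Bool → ℕ → ℕ) (b : Bool) (h : a b p ≠ 0) :
    d.P b p ∣ d.mono a := by
  unfold mono
  refine dvd_trans ?_ (dvd_prod_of_mem _ hp)
  cases b
  · exact Dvd.dvd.mul_left (dvd_pow_self _ h) _
  · exact Dvd.dvd.mul_right (dvd_pow_self _ h) _

/-- no prime of `T` ramifies -/
theorem unram {p : ℕ} (hp : p ∈ d.T) : d.P true p ≠ d.P false p := by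
  intro heq
  have hpp := d.hp p hp
  have hN := d.hnorm p hp true
  obtain ⟨m₀, hm₀⟩ := residue hpp.pos hN (int_mem_of_absNorm hpp hN) d.q.w
  obtain ⟨m, ⟨c, hc⟩, _, hm2⟩ := link d.q.D d.q.t d.q.n rfl d.D_pos d.q.not_square (p : ℤ)
    (by exact_mod_cast hpp.pos) (d.hsmall p hp) m₀
  have hpP : (p : R) ∈ d.P true p := by
    have h1 := absNorm_mem (d.P true p)
    rwa [hN] at h1
  have hmem : d.q.w + (m : R) ∈ d.P true p := by
    have : d.q.w + (m : R) = (d.q.w + (m₀ : R)) + (c : R) * (p : R) := by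
      have h1 : (m : R) = ((m₀ + p * c : ℤ) : R) := by
        congr 1; linarith
      rw [h1]; push_cast; ring
    rw [this]
    exact Ideal.add_mem _ hm₀ (Ideal.mul_mem_left _ _ hpP)
  obtain ⟨J, hJ⟩ := dvd_span_singleton.2 hmem
  have hJ0 : J ≠ 0 := by
    rintro rfl
    rw [mul_zero] at hJ
    exact span_w_ne d.q m hJ
  have hNJ : 4 * (absNorm J : ℤ) ^ 2 < d.q.D := by
    have h1 := norm_w d.q m
    rw [hJ, map_mul, hN] at h1
    have h2 : ((p : ℤ) * (absNorm J : ℤ)) ^ 2 = (m ^ 2 + d.q.t * m + d.q.n) ^ 2 := by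
      rw [← Int.natAbs_sq (m ^ 2 + d.q.t * m + d.q.n), ← h1]
      push_cast; ring
    rw [← h2] at hm2
    have hp2 : (0 : ℤ) < (p : ℤ) ^ 2 := by have := hpp.pos; positivity
    have h3 : (p : ℤ) ^ 2 * (4 * (absNorm J : ℤ) ^ 2) < (p : ℤ) ^ 2 * d.q.D := by
      linarith
    exact lt_of_mul_lt_mul_left h3 hp2.le
  obtain ⟨a, ha1, ha2⟩ := d.factor J hJ0 hNJ
  have ha0 : ∀ b, a b p = 0 := by
    intro b
    by_contra hcon
    have h1 := (d.dvd_mono hp a b hcon).trans ha1
    have h2 : d.P b p = d.P true p := by cases b <;> simp [heq]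
    rw [h2] at h1
    have h3 : d.P true p * d.P true p ∣ span {d.q.w + (m : R)} := by
      rw [hJ]; exact mul_dvd_mul_left _ h1
    have h4 : span {(p : R)} = d.P true p * d.P true p := by
      rw [d.hspan p hp, heq]
    rw [← h4] at h3
    exact prim d.q m hpp.two_le h3
  have h5 : ∏ r ∈ d.T, (d.g r) ^ (((a true r : ℤ) - (a false r : ℤ)) + if r = p then 1 else 0) = 1 := by
    have h6 := cl_span (d.q.w + (m : R))
    rw [hJ, cl_mul (d.P_ne hp true) hJ0, ha2] at h6
    have h7 : ∏ r ∈ d.T, (if r = p then d.g r else 1) = cl (d.P true p) := by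
      rw [prod_ite_eq' d.T p (fun r => d.g r), if_pos hp]; rfl
    rw [← h7, ← prod_mul_distrib] at h6
    rw [← h6]
    apply prod_congr rfl
    intro r _
    by_cases hr : r = p
    · simp only [hr, if_true]
      rw [zpow_add, zpow_one, mul_comm]
    · simp [hr]
  have h8 := d.indep _ h5 p hp
  simp only [ha0, if_true] at h8
  have := Int.le_of_dvd (by norm_num) h8
  have := d.he
  omega

/-- the ideal `∏ P (s p) p ^ k` -/
noncomputable def A (s : ℕ → Bool) (k : ℕ) : Ideal R := ∏ p ∈ d.T, d.P (s p) p ^ k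

/-- product of the primes of `T` -/
def Pr : ℕ := ∏ p ∈ d.T, p

theorem absNorm_A (s : ℕ → Bool) (k : ℕ) : absNorm (d.A s k) = d.Pr ^ k := by
  unfold A Pr
  rw [map_prod, ← prod_pow]
  apply prod_congr rfl
  intro p hp
  rw [map_pow, d.hnorm p hp]

theorem P_ne_not {p : ℕ} (hp : p ∈ d.T) (b : Bool) : d.P b p ≠ d.P (!b) p := by
  cases b
  · exact (d.unram hp).symm
  · exact d.unram hp

theorem A_ne (s : ℕ → Bool) (k : ℕ) : d.A s k ≠ 0 := by
  unfold A
  rw [prod_ne_zero_iff]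
  intro p hp
  exact pow_ne_zero _ (d.P_ne hp _)

theorem int_mem_pow {p : ℕ} (hp : p ∈ d.T) (b : Bool) (k : ℕ) :
    ∀ c : ℤ, d.P b p ^ k ∣ span {(c : R)} → (p : ℤ) ^ k ∣ c := by
  induction k with
  | zero => intro c _; simp
  | succ k ih =>
    intro c hc
    have h1 : (c : R) ∈ d.P b p := by
      rw [← dvd_span_singleton]
      exact (dvd_pow_self _ (Nat.succ_ne_zero k)).trans hc
    obtain ⟨c', rfl⟩ := int_mem_of_absNorm (d.hp p hp) (d.hnorm p hp b) c h1
    have h2 : span {((p * c' : ℤ) : R)} = d.P b p * (d.P (!b) p * span {(c' : R)}) := by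
      push_cast
      rw [← span_singleton_mul_span_singleton, d.span_eq hp b, mul_assoc]
    rw [h2, pow_succ', mul_dvd_mul_iff_left (d.P_ne hp b)] at hc
    have h3 := (d.P_prime hp b).pow_dvd_of_dvd_mul_left k
      (not_dvd_of_ne (d.P_prime hp b) (d.P_prime hp (!b)) (d.P_ne_not hp b)) hc
    rw [pow_succ']
    exact mul_dvd_mul_left _ (ih c' h3)

theorem int_mem_A (s : ℕ → Bool) (k : ℕ) (c : ℤ) (hc : (c : R) ∈ d.A s k) :
    ((d.Pr ^ k : ℕ) : ℤ) ∣ c := by
  have h1 : ∏ p ∈ d.T, (p : ℤ) ^ k ∣ c := by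
    apply Finset.prod_dvd_of_coprime
    · intro p hp r hr hpr
      simp only [Function.onFun]
      apply IsCoprime.pow
      rw [Nat.isCoprime_iff_coprime]
      exact (Nat.coprime_primes (d.hp p hp) (d.hp r hr)).2 hpr
    · intro p hp
      apply d.int_mem_pow hp (s p) k c
      rw [← dvd_span_singleton] at hc
      refine dvd_trans ?_ hc
      unfold A
      exact dvd_prod_of_mem (fun p => d.P (s p) p ^ k) hp
  unfold Pr
  rw [← prod_pow]
  push_cast
  exact h1

theorem Pr_pos : 0 < d.Pr := prod_pos (fun p hp => (d.hp p hp).pos)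

end Data

end Pool.Agent.H24.Cls
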