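import Mathlib
import Pool.Agent.H24.Cls.Steps

namespace Pool.Agent.H24.Cls

open Ideal Finset

/-- the arithmetic heart of the argument -/
theorem arith {t n a A m1 m1' m2 m2' : ℤ} {s : ℝ} (ha : 0 < a) (hA : a ^ 2 ≤ A) (hA4 : 4 * a ≤ A)
    (h1 : |((2 * m1 + t : ℤ) : ℝ) - s| < 2 * a) (h1' : |((2 * m1' + t : ℤ) : ℝ) - s| < 2 * a)
    (h2 : |((2 * m2 + t : ℤ) : ℝ) - s| < 2 * a) (h2' : |((2 * m2' + t : ℤ) : ℝ) - s| < 2 * a)
    (hF1 : A ∣ m1 ^ 2 + t * m1 + n) (hF2 : A ∣ m2 ^ 2 + t * m2 + n)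
    (hs1 : A ∣ m1 + m1' + t) (hs2 : A ∣ m2 + m2' + t) : m1 = m2 ∨ m1 = m2' := by
  obtain ⟨k1, hk1⟩ := hs1
  obtain ⟨k2, hk2⟩ := hs2
  rw [abs_lt] at h1 h1' h2 h2'
  push_cast at h1 h1' h2 h2'
  have hk : k1 = k2 := by
    have e1 : (A : ℝ) * (k1 - k2) < 4 * a := by
      have : ((A * k1 : ℤ) : ℝ) - ((A * k2 : ℤ) : ℝ) < 4 * a := by
        rw [← hk1, ← hk2]; push_cast; linarith [h1.2, h1'.2, h2.1, h2'.1]
      push_cast at this; linarith
    have e2 : -(4 * a : ℝ) < (A : ℝ) * (k1 - k2) := by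
      have : -(4 * a : ℝ) < ((A * k1 : ℤ) : ℝ) - ((A * k2 : ℤ) : ℝ) := by
        rw [← hk1, ← hk2]; push_cast; linarith [h1.1, h1'.1, h2.2, h2'.2]
      push_cast at this; linarith
    have e3 : A * (k1 - k2) < 4 * a := by exact_mod_cast e1
    have e4 : -(4 * a) < A * (k1 - k2) := by exact_mod_cast e2
    have hApos : 0 < A := by omega
    have e5 : k1 - k2 < 1 := by
      by_contra hcon
      push Not at hcon
      have : A * 1 ≤ A * (k1 - k2) := mul_le_mul_of_nonneg_left hcon hApos.le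
      omega
    have e6 : -1 < k1 - k2 := by
      by_contra hcon
      push Not at hcon
      have : A * (k1 - k2) ≤ A * (-1) := mul_le_mul_of_nonneg_left hcon hApos.le
      omega
    omega
  subst hk
  have hdiv : A ∣ (m2 - m1) * (m2' - m1) := by
    have e1 : (m2 - m1) * (m2' - m1) = (m1 ^ 2 + t * m1 + n) - (m2 ^ 2 + t * m2 + n)
        + (m2 - m1) * (m2 + m2' + t) := by ring
    rw [e1, hk2]
    exact dvd_add (dvd_sub hF1 hF2) ⟨(m2 - m1) * k1, by ring⟩
  -- size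
  have y1a : m1' - m1 < 2 * a := by
    have : ((m1' - m1 : ℤ) : ℝ) < ((2 * a : ℤ) : ℝ) := by push_cast; linarith [h1.1, h1'.2]
    exact_mod_cast this
  have y1b : -(2 * a) < m1' - m1 := by
    have : ((-(2 * a) : ℤ) : ℝ) < ((m1' - m1 : ℤ) : ℝ) := by push_cast; linarith [h1.2, h1'.1]
    exact_mod_cast this
  have y2a : m2' - m2 < 2 * a := by
    have : ((m2' - m2 : ℤ) : ℝ) < ((2 * a : ℤ) : ℝ) := by push_cast; linarith [h2.1, h2'.2]
    exact_mod_cast this
  have y2b : -(2 * a) < m2' - m2 := by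
    have : ((-(2 * a) : ℤ) : ℝ) < ((m2' - m2 : ℤ) : ℝ) := by push_cast; linarith [h2.2, h2'.1]
    exact_mod_cast this
  have q1 : (m1' - m1) ^ 2 < (2 * a) ^ 2 := by nlinarith
  have q2 : (m2' - m2) ^ 2 < (2 * a) ^ 2 := by nlinarith
  have hm1' : m1' = m2 + m2' - m1 := by
    have := hk1.trans hk2.symm
    omega
  have e7 : 4 * ((m2 - m1) * (m2' - m1)) = (m1' - m1) ^ 2 - (m2' - m2) ^ 2 := by
    rw [hm1']; ring
  have e8 : |(m2 - m1) * (m2' - m1)| < A := by
    rw [abs_lt]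
    have p1 := sq_nonneg (m1' - m1)
    have p2 := sq_nonneg (m2' - m2)
    constructor <;> nlinarith
  have e9 := Int.eq_zero_of_abs_lt_dvd hdiv e8
  rcases mul_eq_zero.1 e9 with h | h
  · left; omega
  · right; omega

variable {R : Type*} [CommRing R] [IsDedekindDomain R] [Module.Free ℤ R]
    [Module.Finite ℤ R]

namespace Data

variable (d : Data R)

/-- half the exponent -/
def f : ℕ := d.e / 2

theorem f_pos : 1 ≤ d.f := by have := d.he; unfold f; omega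

theorem two_f : 2 * d.f ≤ d.e := by unfold f; omega

theorem f_lt : d.f + 1 ≤ d.e := by have := d.he; unfold f; omega

/-- the product of the primes of `T`, to the power `e / 2`, is below the Minkowski bound -/
theorem Pr_small : 4 * ((d.Pr ^ d.f : ℕ) : ℤ) ^ 2 < d.q.D := by
  obtain ⟨I, hI, hcl, hN⟩ := d.hmink (∏ p ∈ d.T, (d.g p) ^ ((d.f : ℕ) : ℤ))
  obtain ⟨a, ha1, ha2⟩ := d.factor I hI hN
  have h1 : ∏ p ∈ d.T, (d.g p) ^ (((a true p : ℤ) - (a false p : ℤ)) - (d.f : ℤ)) = 1 := by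
    have h2 : ∀ p ∈ d.T, (d.g p) ^ (((a true p : ℤ) - (a false p : ℤ)) - (d.f : ℤ))
        = (d.g p) ^ ((a true p : ℤ) - (a false p : ℤ)) / (d.g p) ^ ((d.f : ℕ) : ℤ) := by
      intro p _
      rw [zpow_sub, div_eq_mul_inv]
    rw [prod_congr rfl h2, prod_div_distrib, ← ha2, hcl, div_self']
  have h3 := d.indep _ h1
  have h4 : ∀ p ∈ d.T, d.f ≤ a true p + a false p := by
    intro p hp
    by_contra hcon
    push Not at hcon
    obtain ⟨c, hc⟩ := h3 p hp
    have hf := d.two_f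
    have hepos : (0 : ℤ) < d.e := by have := d.he; omega
    have h5 : ((a true p : ℤ) - (a false p : ℤ)) - (d.f : ℤ) < 0 := by omega
    have h6 : -(d.e : ℤ) < ((a true p : ℤ) - (a false p : ℤ)) - (d.f : ℤ) := by omega
    rw [hc] at h5 h6
    have h7 : c < 0 := by
      by_contra h; push Not at h
      have : 0 ≤ (d.e : ℤ) * c := mul_nonneg hepos.le h
      omega
    have h8 : -1 < c := by
      by_contra h; push Not at h
      have : (d.e : ℤ) * c ≤ (d.e : ℤ) * (-1) := mul_le_mul_of_nonneg_left h hepos.le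
      omega
    omega
  have h9 : d.Pr ^ d.f ≤ absNorm I := by
    have hIpos : 0 < absNorm I := Nat.pos_of_ne_zero (by
      rw [Ne, absNorm_eq_zero_iff]; exact hI)
    have h10 : absNorm (d.mono a) ∣ absNorm I := by
      obtain ⟨J, hJ⟩ := ha1
      exact ⟨absNorm J, by rw [hJ, map_mul]⟩
    refine le_trans ?_ (Nat.le_of_dvd hIpos h10)
    unfold mono Pr
    rw [map_prod, ← prod_pow]
    apply prod_le_prod'
    intro p hp
    rw [map_mul, map_pow, map_pow, d.hnorm p hp, d.hnorm p hp, ← pow_add]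
    exact Nat.pow_le_pow_right (d.hp p hp).pos (h4 p hp)
  refine lt_of_le_of_lt ?_ hN
  have h11 : ((d.Pr ^ d.f : ℕ) : ℤ) ≤ absNorm I := by exact_mod_cast h9
  have h12 : ((d.Pr ^ d.f : ℕ) : ℤ) ^ 2 ≤ (absNorm I : ℤ) ^ 2 :=
    pow_le_pow_left₀ (by positivity) h11 2
  linarith

theorem not_both (m : ℤ) {p : ℕ} (hp : p ∈ d.T) (b : Bool)
    (h1 : d.P b p ∣ span {d.q.w + (m : R)}) (h2 : d.P (!b) p ∣ span {d.q.w + (m : R)}) : False := by
  have h3 := dvd_both (d.P_prime hp b) (d.P_prime hp (!b)) (d.P_ne_not hp b) h1 h2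
  rw [← d.span_eq hp b] at h3
  exact prim d.q m (d.hp p hp).two_le h3

/-- elements `w + m` highly divisible by prescribed primes -/
theorem beta (s : ℕ → Bool) : ∃ m : ℤ,
    |((2 * m + d.q.t : ℤ) : ℝ) - Real.sqrt d.q.D| < 2 * ((d.Pr ^ d.f : ℕ) : ℤ) ∧
    (∀ p ∈ d.T, d.P (s p) p ^ d.e ∣ span {d.q.w + (m : R)}) ∧
    4 * (m ^ 2 + d.q.t * m + d.q.n) ^ 2 < ((d.Pr ^ d.f : ℕ) : ℤ) ^ 2 * d.q.D := by
  have hPpos : 0 < d.Pr ^ d.f := pow_pos d.Pr_pos _
  obtain ⟨m₀, hm₀⟩ := residue hPpos (d.absNorm_A s d.f) (d.int_mem_A s d.f) d.q.w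
  obtain ⟨m, ⟨c, hc⟩, hm1, hm2⟩ := link d.q.D d.q.t d.q.n rfl d.D_pos d.q.not_square
    ((d.Pr ^ d.f : ℕ) : ℤ) (by exact_mod_cast hPpos) d.Pr_small m₀
  refine ⟨m, hm1, ?_, hm2⟩
  have hpP : ((d.Pr ^ d.f : ℕ) : R) ∈ d.A s d.f := by
    have h1 := absNorm_mem (d.A s d.f)
    rwa [d.absNorm_A] at h1
  have hmem : d.q.w + (m : R) ∈ d.A s d.f := by
    have : d.q.w + (m : R) = (d.q.w + (m₀ : R)) + (c : R) * ((d.Pr ^ d.f : ℕ) : R) := by
      have h1 : (m : R) = ((m₀ + ((d.Pr ^ d.f : ℕ) : ℤ) * c : ℤ) : R) := by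
        congr 1; linarith
      rw [h1]; push_cast; ring
    rw [this]
    exact Ideal.add_mem _ hm₀ (Ideal.mul_mem_left _ _ hpP)
  obtain ⟨J, hJ⟩ := dvd_span_singleton.2 hmem
  have hJ0 : J ≠ 0 := by
    rintro rfl
    rw [mul_zero] at hJ
    exact span_w_ne d.q m hJ
  have hNJ : 4 * (absNorm J : ℤ) ^ 2 < d.q.D := by
    have h1 := norm_w d.q m
    rw [hJ, map_mul, d.absNorm_A] at h1
    have h2 : (((d.Pr ^ d.f : ℕ) : ℤ) * (absNorm J : ℤ)) ^ 2 = (m ^ 2 + d.q.t * m + d.q.n) ^ 2 := by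
      rw [← Int.natAbs_sq (m ^ 2 + d.q.t * m + d.q.n), ← h1]
      push_cast; ring
    rw [← h2] at hm2
    have hp2 : (0 : ℤ) < ((d.Pr ^ d.f : ℕ) : ℤ) ^ 2 := by
      have : (0 : ℤ) < ((d.Pr ^ d.f : ℕ) : ℤ) := by exact_mod_cast hPpos
      positivity
    have h3 : ((d.Pr ^ d.f : ℕ) : ℤ) ^ 2 * (4 * (absNorm J : ℤ) ^ 2)
        < ((d.Pr ^ d.f : ℕ) : ℤ) ^ 2 * d.q.D := by
      linarith
    exact lt_of_mul_lt_mul_left h3 hp2.le
  obtain ⟨a, ha1, ha2⟩ := d.factor J hJ0 hNJ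
  have hclass : ∏ p ∈ d.T, (d.g p) ^ (sg (s p) * (d.f : ℤ) + ((a true p : ℤ) - (a false p : ℤ))) = 1 := by
    have h6 := cl_span (d.q.w + (m : R))
    rw [hJ, cl_mul (d.A_ne s d.f) hJ0, ha2] at h6
    have h7 : cl (d.A s d.f) = ∏ p ∈ d.T, (d.g p) ^ (sg (s p) * (d.f : ℤ)) := by
      unfold A
      rw [cl_prod _ _ (fun p hp => pow_ne_zero _ (d.P_ne hp _))]
      apply prod_congr rfl
      intro p hp
      rw [cl_pow (d.P_ne hp _), d.cl_P hp, zpow_mul, zpow_natCast]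
    rw [h7, ← prod_mul_distrib] at h6
    rw [← h6]
    apply prod_congr rfl
    intro p _
    rw [zpow_add]
  intro p hp
  have hdvd := d.indep _ hclass p hp
  have hPA : d.P (s p) p ^ d.f ∣ d.A s d.f := by
    unfold A
    exact dvd_prod_of_mem (fun p => d.P (s p) p ^ d.f) hp
  have hPβ : d.P (s p) p ∣ span {d.q.w + (m : R)} := by
    rw [hJ]
    exact ((dvd_pow_self _ (by have := d.f_pos; omega)).trans hPA).trans (Dvd.intro _ rfl)
  have hz : a (!(s p)) p = 0 := by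
    by_contra hcon
    have h1 := (d.dvd_mono hp a _ hcon).trans ha1
    apply d.not_both m hp (s p) hPβ
    rw [hJ]
    exact Dvd.dvd.mul_left h1 _
  have hle : d.e ≤ d.f + a (s p) p := by
    have h1 : (d.e : ℤ) ∣ ((d.f + a (s p) p : ℕ) : ℤ) := by
      cases hs : s p
      · rw [hs] at hdvd hz
        simp only [Bool.not_false] at hz
        rw [hz] at hdvd
        simp only [sg, Bool.false_eq_true, if_false] at hdvd
        have : ((d.f + a false p : ℕ) : ℤ) = -(-1 * (d.f : ℤ) + (((0 : ℕ) : ℤ) - (a false p : ℤ))) := by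
          push_cast; ring
        rw [this]
        exact (dvd_neg).2 hdvd
      · rw [hs] at hdvd hz
        simp only [Bool.not_true] at hz
        rw [hz] at hdvd
        simp only [sg, if_true] at hdvd
        have : ((d.f + a true p : ℕ) : ℤ) = (1 * (d.f : ℤ) + ((a true p : ℤ) - ((0 : ℕ) : ℤ))) := by
          push_cast; ring
        rw [this]
        exact hdvd
    have h2 : d.e ∣ d.f + a (s p) p := by exact_mod_cast h1
    exact Nat.le_of_dvd (by have := d.f_pos; omega) h2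
  refine (pow_dvd_pow _ hle).trans ?_
  rw [pow_add, hJ]
  apply mul_dvd_mul hPA
  refine dvd_trans ?_ ha1
  unfold mono
  refine dvd_trans ?_ (dvd_prod_of_mem _ hp)
  cases s p
  · exact Dvd.intro_left _ rfl
  · exact Dvd.intro _ rfl

/-- local form of the sum divisibility -/
theorem local_sum {p : ℕ} (hp : p ∈ d.T) (b : Bool) (m m' : ℤ)
    (h : d.P b p ^ d.e ∣ span {d.q.w + (m : R)})
    (h' : d.P (!b) p ^ d.e ∣ span {d.q.w + (m' : R)}) :
    (p : ℤ) ^ d.e ∣ m + m' + d.q.t ∧ (p : ℤ) ^ d.e ∣ m' ^ 2 + d.q.t * m' + d.q.n := by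
  have hF : (p : ℤ) ^ d.e ∣ m' ^ 2 + d.q.t * m' + d.q.n := by
    obtain ⟨J, hJ⟩ := h'
    have h1 := norm_w d.q m'
    rw [hJ, map_mul, map_pow, d.hnorm p hp] at h1
    have h2 : ((p ^ d.e : ℕ) : ℤ) ∣ m' ^ 2 + d.q.t * m' + d.q.n := by
      rw [Int.natCast_dvd]
      exact ⟨absNorm J, h1.symm⟩
    push_cast at h2; exact h2
  refine ⟨?_, hF⟩
  have hprod : (d.q.w + (m' : R)) * ((d.q.t : R) - d.q.w + (m' : R))
      = ((m' ^ 2 + d.q.t * m' + d.q.n : ℤ) : R) := by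
    push_cast; linear_combination - d.q.eqn
  have h1 : d.P b p ^ d.e ∣ span {d.q.w + (m' : R)} * span {(d.q.t : R) - d.q.w + (m' : R)} := by
    rw [span_singleton_mul_span_singleton, hprod]
    obtain ⟨c, hc⟩ := hF
    rw [hc]
    push_cast
    rw [← span_singleton_mul_span_singleton, ← span_singleton_pow, d.span_eq hp b, mul_pow, mul_assoc]
    exact Dvd.intro _ rfl
  have hne0 : d.e ≠ 0 := by have := d.he; omega
  have h2 := (d.P_prime hp b).pow_dvd_of_dvd_mul_left d.e (fun hcon =>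
    d.not_both m' hp b hcon ((dvd_pow_self _ hne0).trans h')) h1
  rw [dvd_span_singleton] at h h2
  have h3 := Ideal.add_mem _ h h2
  have h4 : d.q.w + (m : R) + ((d.q.t : R) - d.q.w + (m' : R)) = ((m + m' + d.q.t : ℤ) : R) := by
    push_cast; ring
  rw [h4, ← dvd_span_singleton] at h3
  exact d.int_mem_pow hp b d.e _ h3

theorem prod_dvd_int (k : ℕ) (c : ℤ) (h : ∀ p ∈ d.T, (p : ℤ) ^ k ∣ c) :
    ((d.Pr ^ k : ℕ) : ℤ) ∣ c := by
  have h1 : ∏ p ∈ d.T, (p : ℤ) ^ k ∣ c := by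
    apply Finset.prod_dvd_of_coprime
    · intro p hp r hr hpr
      simp only [Function.onFun]
      apply IsCoprime.pow
      rw [Nat.isCoprime_iff_coprime]
      exact (Nat.coprime_primes (d.hp p hp) (d.hp r hr)).2 hpr
    · exact h
  unfold Pr
  rw [← prod_pow]
  push_cast
  exact h1

/-- Main step: at most one prime. -/
theorem card_le_one : #d.T ≤ 1 := by
  by_contra hcon
  push Not at hcon
  obtain ⟨p1, hp1, p2, hp2, hne⟩ := Finset.one_lt_card.1 hcon
  choose m hm1 hm2 hm3 using d.beta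
  have hsum : ∀ s : ℕ → Bool, ((d.Pr ^ d.e : ℕ) : ℤ) ∣ m s + m (fun p => !(s p)) + d.q.t := by
    intro s
    apply d.prod_dvd_int
    intro p hp
    exact (d.local_sum hp (s p) _ _ (hm2 s p hp) (hm2 (fun p => !(s p)) p hp)).1
  have hF : ∀ s : ℕ → Bool, ((d.Pr ^ d.e : ℕ) : ℤ) ∣ m s ^ 2 + d.q.t * m s + d.q.n := by
    intro s
    apply d.prod_dvd_int
    intro p hp
    have h1 := hm2 (fun p => !(s p)) p hp
    have h2 := hm2 s p hp
    have h3 : d.P (!(!(s p))) p ^ d.e ∣ span {d.q.w + (m s : R)} := by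
      rw [Bool.not_not]; exact h2
    exact (d.local_sum hp (!(s p)) _ _ h1 h3).2
  have hPr6 : 6 ≤ d.Pr := by
    unfold Pr
    have h1 : ∏ p ∈ ({p1, p2} : Finset ℕ), p ≤ ∏ p ∈ d.T, p := by
      apply prod_le_prod_of_subset_of_one_le'
      · intro x hx
        simp only [mem_insert, mem_singleton] at hx
        rcases hx with rfl | rfl <;> assumption
      · intro p hp _
        exact (d.hp p hp).one_lt.le
    rw [prod_pair hne] at h1
    have h2 := (d.hp p1 hp1).two_le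
    have h3 := (d.hp p2 hp2).two_le
    refine le_trans ?_ h1
    rcases lt_or_gt_of_ne hne with h | h <;> nlinarith
  have hP1 : 1 ≤ d.Pr := by omega
  have hA1 : (((d.Pr ^ d.f : ℕ) : ℤ)) ^ 2 ≤ ((d.Pr ^ d.e : ℕ) : ℤ) := by
    have : (d.Pr ^ d.f) ^ 2 ≤ d.Pr ^ d.e := by
      rw [← pow_mul]
      exact Nat.pow_le_pow_right hP1 (by have := d.two_f; omega)
    exact_mod_cast this
  have hA2 : 4 * (((d.Pr ^ d.f : ℕ) : ℤ)) ≤ ((d.Pr ^ d.e : ℕ) : ℤ) := by
    have : 4 * d.Pr ^ d.f ≤ d.Pr ^ d.e := by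
      calc 4 * d.Pr ^ d.f ≤ d.Pr * d.Pr ^ d.f := Nat.mul_le_mul_right _ (by omega)
        _ = d.Pr ^ (d.f + 1) := by ring
        _ ≤ d.Pr ^ d.e := Nat.pow_le_pow_right hP1 d.f_lt
    exact_mod_cast this
  set s : ℕ → Bool := fun _ => true with hs
  set s' : ℕ → Bool := fun p => !(decide (p = p1)) with hs'
  have key := arith (by exact_mod_cast pow_pos d.Pr_pos d.f) hA1 hA2 (hm1 s) (hm1 (fun p => !(s p)))
    (hm1 s') (hm1 (fun p => !(s' p))) (hF s) (hF s') (hsum s) (hsum s')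
  have hne0 : d.e ≠ 0 := by have := d.he; omega
  rcases key with h | h
  · have h1 := (dvd_pow_self _ hne0).trans (hm2 s p1 hp1)
    have h2 := (dvd_pow_self _ hne0).trans (hm2 s' p1 hp1)
    rw [← h] at h2
    simp only [hs, hs', decide_true, Bool.not_true] at h1 h2
    exact d.not_both _ hp1 true h1 h2
  · have h1 := (dvd_pow_self _ hne0).trans (hm2 s p2 hp2)
    have h2 := (dvd_pow_self _ hne0).trans (hm2 (fun p => !(s' p)) p2 hp2)
    rw [← h] at h2
    have h3 : decide (p2 = p1) = false := by simp [hne.symm]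
    simp only [hs, hs', h3, Bool.not_not] at h1 h2
    exact d.not_both _ hp2 true h1 h2

end Data

end Pool.Agent.H24.Cls
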