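import Mathlib
import Pool.Agent.H24.Cls.Main

namespace Pool.Agent.H24.Cls

open Ideal Finset

variable {R : Type*} [CommRing R] [IsDedekindDomain R] [Module.Free ℤ R]
    [Module.Finite ℤ R]

theorem window {r X v : ℤ} (hr : 0 < r) (h1 : (2 * r - 1) ^ 2 * v ^ 2 < X ^ 2)
    (h2 : X ^ 2 < (2 * r + 1) ^ 2 * v ^ 2) (hv : v ≠ 0) :
    (X - 2 * r * v) ^ 2 < v ^ 2 ∨ (X + 2 * r * v) ^ 2 < v ^ 2 := by
  rw [← mul_pow, sq_lt_sq] at h1 h2
  rw [abs_mul, abs_of_pos (by omega : (0 : ℤ) < 2 * r - 1)] at h1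
  rw [abs_mul, abs_of_pos (by omega : (0 : ℤ) < 2 * r + 1)] at h2
  rcases lt_or_gt_of_ne hv with hv' | hv'
  · rw [abs_of_neg hv'] at h1 h2
    rcases le_total 0 X with hX | hX
    · rw [abs_of_nonneg hX] at h1 h2
      right
      nlinarith
    · rw [abs_of_nonpos hX] at h1 h2
      left
      nlinarith
  · rw [abs_of_pos hv'] at h1 h2
    rcases le_total 0 X with hX | hX
    · rw [abs_of_nonneg hX] at h1 h2
      left
      nlinarith
    · rw [abs_of_nonpos hX] at h1 h2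
      right
      nlinarith

theorem descent (q : Quad R) (r : ℤ) (hr : 0 < r) (hD : q.D = 4 * r ^ 2 + 1) (c : ℤ)
    (hc : c < r) : ∀ k : ℕ, ∀ u v : ℤ, v.natAbs ≤ k →
      |u ^ 2 + q.t * u * v + q.n * v ^ 2| = c → ∃ d : ℤ, Associated ((u : R) + v * q.w) (d : R) := by
  intro k
  induction k with
  | zero =>
    intro u v hv _
    have : v = 0 := by omega
    subst this
    exact ⟨u, by simp⟩
  | succ k ih =>
    intro u v hv hN
    by_cases hv0 : v = 0
    · subst hv0
      exact ⟨u, by simp⟩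
    · have hD' : q.t ^ 2 - 4 * q.n = 4 * r ^ 2 + 1 := hD
      have hDR : ((q.t : R)) ^ 2 - 4 * (q.n : R) = 4 * (r : R) ^ 2 + 1 := by
        have : ((q.t ^ 2 - 4 * q.n : ℤ) : R) = ((4 * r ^ 2 + 1 : ℤ) : R) := by rw [hD']
        push_cast at this; exact this
      set X := 2 * u + q.t * v with hX
      set N := u ^ 2 + q.t * u * v + q.n * v ^ 2 with hNdef
      have hXN : X ^ 2 = (4 * r ^ 2 + 1) * v ^ 2 + 4 * N := by
        rw [← hD', hX, hNdef]; ring
      have hNlt : |N| < r := by rw [hN]; exact hc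
      rw [abs_lt] at hNlt
      have hv2 : 1 ≤ v ^ 2 := by
        have : 0 < v ^ 2 := by positivity
        omega
      have w1 : (2 * r - 1) ^ 2 * v ^ 2 < X ^ 2 := by
        rw [hXN]; nlinarith
      have w2 : X ^ 2 < (2 * r + 1) ^ 2 * v ^ 2 := by
        rw [hXN]; nlinarith
      -- the unit
      have hunit : (2 * q.w - q.t - 2 * r : R) * (2 * q.w - q.t + 2 * r) = 1 := by
        linear_combination 4 * q.eqn + hDR
      rcases window hr w1 w2 hv0 with h | h
      · have hv' : (2 * u + q.t * v - 2 * r * v).natAbs ≤ k := by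
          have := sq_lt_sq.1 h
          rw [Int.abs_eq_natAbs, Int.abs_eq_natAbs] at this
          omega
        obtain ⟨e, he⟩ := ih (-(q.t + 2 * r) * u - 2 * q.n * v) (2 * u + q.t * v - 2 * r * v) hv' (by
          rw [← hN, ← abs_neg N]
          congr 1
          rw [hNdef]
          have e1 : (-(q.t + 2 * r) * u - 2 * q.n * v) ^ 2
              + q.t * (-(q.t + 2 * r) * u - 2 * q.n * v) * (2 * u + q.t * v - 2 * r * v)
              + q.n * (2 * u + q.t * v - 2 * r * v) ^ 2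
              = (u ^ 2 + q.t * u * v + q.n * v ^ 2) * (4 * r ^ 2 - (q.t ^ 2 - 4 * q.n)) := by ring
          rw [e1, hD']; ring)
        refine ⟨e, Associated.trans ?_ he⟩
        refine ⟨Units.mkOfMulEqOne _ _ hunit, ?_⟩
        simp only [Units.val_mkOfMulEqOne]
        push_cast
        linear_combination (2 * v : R) * q.eqn
      · have hunit' : (2 * q.w - q.t + 2 * r : R) * (2 * q.w - q.t - 2 * r) = 1 := by
          linear_combination hunit
        have hv' : (2 * u + q.t * v + 2 * r * v).natAbs ≤ k := by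
          have := sq_lt_sq.1 h
          rw [Int.abs_eq_natAbs, Int.abs_eq_natAbs] at this
          omega
        obtain ⟨e, he⟩ := ih (-(q.t - 2 * r) * u - 2 * q.n * v) (2 * u + q.t * v + 2 * r * v) hv' (by
          rw [← hN, ← abs_neg N]
          congr 1
          rw [hNdef]
          have e1 : (-(q.t - 2 * r) * u - 2 * q.n * v) ^ 2
              + q.t * (-(q.t - 2 * r) * u - 2 * q.n * v) * (2 * u + q.t * v + 2 * r * v)
              + q.n * (2 * u + q.t * v + 2 * r * v) ^ 2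
              = (u ^ 2 + q.t * u * v + q.n * v ^ 2) * (4 * r ^ 2 - (q.t ^ 2 - 4 * q.n)) := by ring
          rw [e1, hD']; ring)
        refine ⟨e, Associated.trans ?_ he⟩
        refine ⟨Units.mkOfMulEqOne _ _ hunit', ?_⟩
        simp only [Units.val_mkOfMulEqOne]
        push_cast
        linear_combination (2 * v : R) * q.eqn

namespace Data

variable (d : Data R)

theorem pow_not_prime {q0 r e : ℕ} (he : 2 ≤ e) (hr : r.Prime) : q0 ^ e ≠ r := by
  intro h
  rw [← h] at hr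
  exact Nat.Prime.not_prime_pow he hr

/-- in the special case the ideal of norm `q0 ^ e` has norm above the Minkowski bound -/
theorem big {q0 r : ℕ} (hq0 : q0 ∈ d.T) (hr : r.Prime)
    (hD : d.q.D = 4 * (r : ℤ) ^ 2 + 1) : d.q.D < 4 * ((q0 : ℤ) ^ d.e) ^ 2 := by
  by_contra hcon
  push Not at hcon
  have hqp := d.hp q0 hq0
  have hrpos : (0 : ℤ) < r := by exact_mod_cast hr.pos
  have hApos : (0 : ℤ) < (q0 : ℤ) ^ d.e := by
    have : (0 : ℤ) < q0 := by exact_mod_cast hqp.pos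
    positivity
  have h1 : (q0 : ℤ) ^ d.e ≤ r := by
    rw [hD] at hcon
    by_contra hlt
    push Not at hlt
    have : (r : ℤ) + 1 ≤ (q0 : ℤ) ^ d.e := hlt
    nlinarith
  have h2 : (q0 : ℤ) ^ d.e ≠ r := by
    intro h
    exact pow_not_prime (q0 := q0) d.he hr (by exact_mod_cast h)
  have h3 : (q0 : ℤ) ^ d.e < r := lt_of_le_of_ne h1 h2
  have hcl : cl (d.P true q0 ^ d.e) = 1 := by
    rw [cl_pow (d.P_ne hq0 true)]; exact d.hexp _
  obtain ⟨α, hα⟩ := isPrincipal_of_cl hcl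
  obtain ⟨u, v, rfl⟩ := d.q.gen α
  have hN : absNorm (d.P true q0 ^ d.e) = q0 ^ d.e := by rw [map_pow, d.hnorm q0 hq0]
  rw [hα, absNorm_span_singleton, d.q.norm_eq] at hN
  have hN' : |u ^ 2 + d.q.t * u * v + d.q.n * v ^ 2| = (q0 : ℤ) ^ d.e := by
    rw [Int.abs_eq_natAbs, hN]; push_cast; rfl
  obtain ⟨c, hc⟩ := descent d.q r hrpos hD _ h3 _ u v le_rfl hN'
  have h4 : span {(u : R) + v * d.q.w} = span {(c : R)} := by
    rw [span_singleton_eq_span_singleton]; exact hc
  have h5 : (q0 : ℤ) ^ d.e ∣ c := by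
    apply d.int_mem_pow hq0 true d.e c
    rw [hα, h4]
  have h6 : (c.natAbs : ℤ) ^ 2 = (q0 : ℤ) ^ d.e := by
    have h7 : absNorm (span {(c : R)}) = q0 ^ d.e := by
      rw [← h4, ← hα, map_pow, d.hnorm q0 hq0]
    rw [absNorm_span_singleton] at h7
    have h8 := d.q.norm_eq c 0
    have e1 : (c : R) + ((0 : ℤ) : R) * d.q.w = (c : R) := by push_cast; ring
    rw [e1] at h8
    rw [h8] at h7
    have h9 : ((c ^ 2 + d.q.t * c * 0 + d.q.n * 0 ^ 2).natAbs : ℤ) = (q0 : ℤ) ^ d.e := by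
      rw [h7]; push_cast; rfl
    have h10 : c ^ 2 + d.q.t * c * 0 + d.q.n * 0 ^ 2 = c ^ 2 := by ring
    rw [h10, Int.natAbs_pow] at h9
    push_cast at h9 ⊢
    exact h9
  have hc0 : c ≠ 0 := by
    rintro rfl
    simp at h6
    omega
  have h7 : (q0 : ℤ) ^ d.e ≤ c.natAbs := by
    have h8 : (q0 ^ d.e) ∣ c.natAbs := by
      have := Int.natAbs_dvd_natAbs.2 h5
      simpa [Int.natAbs_pow] using this
    have h9 := Nat.le_of_dvd (Int.natAbs_pos.2 hc0) h8
    exact_mod_cast h9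
  have h8 : (4 : ℤ) ≤ (q0 : ℤ) ^ d.e := by
    have : 4 ≤ q0 ^ d.e := by
      calc 4 = 2 ^ 2 := by norm_num
        _ ≤ q0 ^ 2 := Nat.pow_le_pow_left hqp.two_le 2
        _ ≤ q0 ^ d.e := Nat.pow_le_pow_right hqp.pos d.he
    exact_mod_cast this
  nlinarith

/-- exact norms in the special case -/
theorem exact_norm {q0 r : ℕ} (hq0 : q0 ∈ d.T) (hT : d.T = {q0}) (hr : r.Prime)
    (hD : d.q.D = 4 * (r : ℤ) ^ 2 + 1)
    (hsp : ∀ l : ℕ, l.Prime → ¬ (span {(l : R)}).IsPrime → 4 * (l : ℤ) ^ 2 < d.q.D → l = q0 ∨ l = r)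
    (b : Bool) (m : ℤ) (h1 : d.P b q0 ^ d.e ∣ span {d.q.w + (m : R)})
    (h2 : 4 * (m ^ 2 + d.q.t * m + d.q.n) ^ 2 < ((q0 ^ d.f : ℕ) : ℤ) ^ 2 * d.q.D) :
    |m ^ 2 + d.q.t * m + d.q.n| = (q0 : ℤ) ^ d.e := by
  have hqp := d.hp q0 hq0
  have hbig := d.big hq0 hr hD
  have hne0 : d.e ≠ 0 := by have := d.he; omega
  have hPβ := (dvd_pow_self (d.P b q0) hne0).trans h1
  obtain ⟨J, hJ⟩ := h1
  have hJ0 : J ≠ 0 := by
    rintro rfl
    rw [mul_zero] at hJ
    exact span_w_ne d.q m hJ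
  have hN := norm_w d.q m
  rw [hJ, map_mul, map_pow, d.hnorm q0 hq0] at hN
  set c := absNorm J with hc
  have hF : |m ^ 2 + d.q.t * m + d.q.n| = (q0 : ℤ) ^ d.e * c := by
    rw [Int.abs_eq_natAbs, ← hN]; push_cast; rfl
  by_cases hc1 : c = 1
  · rw [hF, hc1]; simp
  exfalso
  have hcpos : 0 < c := Nat.pos_of_ne_zero (by
    rw [hc, Ne, absNorm_eq_zero_iff]; exact hJ0)
  have hq0pos : (0 : ℤ) < q0 := by exact_mod_cast hqp.pos
  have hq2 : (2 : ℤ) ≤ q0 := by exact_mod_cast hqp.two_le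
  have hcposZ : (0 : ℤ) < c := by exact_mod_cast hcpos
  -- size of c
  have hcsize : 4 * (q0 : ℤ) ^ 2 * (c : ℤ) ^ 2 < d.q.D := by
    rw [← sq_abs (m ^ 2 + d.q.t * m + d.q.n), hF] at h2
    push_cast at h2
    have h3 : (q0 : ℤ) ^ (d.f + 1) ≤ (q0 : ℤ) ^ d.e := pow_le_pow_right₀ (by omega) d.f_lt
    have h4 : ((q0 : ℤ) ^ (d.f + 1) * c) ^ 2 ≤ ((q0 : ℤ) ^ d.e * c) ^ 2 := by
      apply pow_le_pow_left₀ (by positivity)
      exact mul_le_mul_of_nonneg_right h3 hcposZ.le
    have h5 : ((q0 : ℤ) ^ d.f) ^ 2 * (4 * (q0 : ℤ) ^ 2 * (c : ℤ) ^ 2) < ((q0 : ℤ) ^ d.f) ^ 2 * d.q.D := by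
      have : ((q0 : ℤ) ^ (d.f + 1) * c) ^ 2 = ((q0 : ℤ) ^ d.f) ^ 2 * ((q0 : ℤ) ^ 2 * (c : ℤ) ^ 2) := by ring
      nlinarith
    exact lt_of_mul_lt_mul_left h5 (by positivity)
  have hc4 : 4 * (c : ℤ) ^ 2 < d.q.D := by
    refine lt_of_le_of_lt ?_ hcsize
    have : (1 : ℤ) ≤ (q0 : ℤ) ^ 2 := by nlinarith
    nlinarith [sq_nonneg (c : ℤ)]
  -- a prime factor of J
  have hJtop : J ≠ ⊤ := by
    intro h; apply hc1; rw [hc, h, absNorm_top]
  obtain ⟨I, hI, hle⟩ := exists_le_maximal _ hJtop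
  have hIJ : I ∣ J := dvd_iff_le.2 hle
  have hI0 : I ≠ ⊥ := by
    rintro rfl
    exact hJ0 (by rw [zero_eq_bot]; exact le_bot_iff.1 hle)
  have hIp : Prime I := (prime_iff_isPrime hI0).2 hI.isPrime
  have hIc : absNorm I ∣ c := by
    obtain ⟨J', hJ'⟩ := hIJ
    exact ⟨absNorm J', by rw [hc, hJ', map_mul]⟩
  have hJβ : J ∣ span {d.q.w + (m : R)} := by rw [hJ]; exact Dvd.intro_left _ rfl
  obtain ⟨l, hl, hcase | hcase⟩ := d.q.prime_cases hIp
  · obtain ⟨hNI, hni, hIl⟩ := hcase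
    have hlc : l ≤ c := Nat.le_of_dvd hcpos (by rw [← hNI]; exact hIc)
    have hlcZ : (l : ℤ) ≤ c := by exact_mod_cast hlc
    have hl0 : (0 : ℤ) ≤ l := by positivity
    rcases hsp l hl hni (by nlinarith) with rfl | rfl
    · -- l = q0
      have h3 : ∃ b', I = d.P b' l := by
        rw [d.hspan l hq0] at hIl
        rcases hIp.dvd_or_dvd hIl with h | h
        · exact ⟨true, associated_iff_eq.1 ((hIp.dvd_prime_iff_associated (d.P_prime hq0 true)).1 h)⟩
        · exact ⟨false, associated_iff_eq.1 ((hIp.dvd_prime_iff_associated (d.P_prime hq0 false)).1 h)⟩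
      obtain ⟨b', hb'⟩ := h3
      by_cases hbb : b' = b
      · subst hbb
        obtain ⟨J', hJ'⟩ := hIJ
        have hJ'0 : J' ≠ 0 := by
          rintro rfl
          rw [mul_zero] at hJ'
          exact hJ0 hJ'
        have hcJ' : c = l * absNorm J' := by rw [hc, hJ', map_mul, hNI]
        have hJ'pos : 0 < absNorm J' := Nat.pos_of_ne_zero (by
          rw [Ne, absNorm_eq_zero_iff]; exact hJ'0)
        have hNJ' : 4 * (absNorm J' : ℤ) ^ 2 < d.q.D := by
          refine lt_of_le_of_lt ?_ hc4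
          have : absNorm J' ≤ c := by rw [hcJ']; exact Nat.le_mul_of_pos_left _ hqp.pos
          have h6 : (absNorm J' : ℤ) ≤ c := by exact_mod_cast this
          have h7 : (0 : ℤ) ≤ absNorm J' := by positivity
          nlinarith
        obtain ⟨a, ha1, ha2⟩ := d.factor J' hJ'0 hNJ'
        have hclass : ∏ p ∈ d.T, (d.g p) ^ (sg b' * ((d.e : ℤ) + 1)
            + ((a true p : ℤ) - (a false p : ℤ))) = 1 := by
          have h6 := cl_span (d.q.w + (m : R))
          rw [hJ, hJ', hb', cl_mul (pow_ne_zero _ (d.P_ne hq0 b')) (mul_ne_zero (d.P_ne hq0 b') hJ'0),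
            cl_mul (d.P_ne hq0 b') hJ'0, cl_pow (d.P_ne hq0 b'), d.cl_P hq0, ha2] at h6
          rw [← h6, hT, prod_singleton, prod_singleton, zpow_add, mul_add, zpow_add, mul_one,
            zpow_mul, zpow_natCast, mul_assoc]
        have hdvd := d.indep _ hclass l hq0
        have hz : a (!b') l = 0 := by
          by_contra hcon
          have h6 := (d.dvd_mono hq0 a _ hcon).trans ha1
          apply d.not_both m hq0 b' hPβ
          refine h6.trans (dvd_trans ?_ hJβ)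
          rw [hJ']; exact Dvd.intro_left _ rfl
        have hle' : d.e ≤ 1 + a b' l := by
          have h6 : (d.e : ℤ) ∣ ((1 + a b' l : ℕ) : ℤ) := by
            cases b'
            · simp only [Bool.not_false] at hz
              rw [hz] at hdvd
              simp only [sg, Bool.false_eq_true, if_false] at hdvd
              have : ((1 + a false l : ℕ) : ℤ)
                  = -(-1 * ((d.e : ℤ) + 1) + (((0 : ℕ) : ℤ) - (a false l : ℤ))) - d.e := by
                push_cast; ring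
              rw [this]
              exact dvd_sub ((dvd_neg).2 hdvd) (dvd_refl _)
            · simp only [Bool.not_true] at hz
              rw [hz] at hdvd
              simp only [sg, if_true] at hdvd
              have : ((1 + a true l : ℕ) : ℤ)
                  = (1 * ((d.e : ℤ) + 1) + ((a true l : ℤ) - ((0 : ℕ) : ℤ))) - d.e := by
                push_cast; ring
              rw [this]
              exact dvd_sub hdvd (dvd_refl _)
          have h7 : d.e ∣ 1 + a b' l := by exact_mod_cast h6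
          exact Nat.le_of_dvd (by omega) h7
        have hNJ'2 : l ^ (a b' l) ∣ absNorm J' := by
          have h6 : d.P b' l ^ (a b' l) ∣ J' := by
            refine dvd_trans ?_ ha1
            unfold mono
            refine dvd_trans ?_ (dvd_prod_of_mem _ hq0)
            cases b'
            · exact Dvd.intro_left _ rfl
            · exact Dvd.intro _ rfl
          obtain ⟨J'', hJ''⟩ := h6
          rw [hJ'', map_mul, map_pow, d.hnorm l hq0]
          exact Dvd.intro _ rfl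
        have h8 : l ^ d.e ≤ c := by
          rw [hcJ']
          calc l ^ d.e ≤ l ^ (1 + a b' l) := Nat.pow_le_pow_right hqp.pos hle'
            _ = l * l ^ (a b' l) := by rw [pow_add, pow_one]
            _ ≤ l * absNorm J' := Nat.mul_le_mul_left _ (Nat.le_of_dvd hJ'pos hNJ'2)
        have h9 : (l : ℤ) ^ d.e ≤ c := by exact_mod_cast h8
        have h10 : (0 : ℤ) ≤ (l : ℤ) ^ d.e := by positivity
        nlinarith
      · have h4 : b' = !b := by cases b <;> cases b' <;> simp_all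
        subst h4
        rw [hb'] at hIJ
        exact d.not_both m hq0 b hPβ (hIJ.trans hJβ)
    · -- l = r
      rw [hD] at hcsize
      have h3 : (4 : ℤ) ≤ (q0 : ℤ) ^ 2 := by nlinarith
      have h4 : (l : ℤ) ^ 2 ≤ (c : ℤ) ^ 2 := pow_le_pow_left₀ hl0 hlcZ 2
      have h5 : 4 * (c : ℤ) ^ 2 ≤ (q0 : ℤ) ^ 2 * (c : ℤ) ^ 2 :=
        mul_le_mul_of_nonneg_right h3 (sq_nonneg _)
      have h6 : (1 : ℤ) ≤ (l : ℤ) ^ 2 := by
        have : (1 : ℤ) ≤ l := by exact_mod_cast hl.pos
        nlinarith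
      nlinarith
  · obtain ⟨hIl, _⟩ := hcase
    rw [hIl] at hIJ
    exact prim d.q m hl.two_le (hIJ.trans hJβ)

/-- the special case is impossible -/
theorem special {q0 r : ℕ} (hT : d.T = {q0}) (hr : r.Prime)
    (hD : d.q.D = 4 * (r : ℤ) ^ 2 + 1)
    (hsp : ∀ l : ℕ, l.Prime → ¬ (span {(l : R)}).IsPrime → 4 * (l : ℤ) ^ 2 < d.q.D →
      l = q0 ∨ l = r) : False := by
  have hq0 : q0 ∈ d.T := by rw [hT]; exact mem_singleton_self _
  have hqp := d.hp q0 hq0
  have hPr : d.Pr = q0 := by unfold Pr; rw [hT, prod_singleton]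
  obtain ⟨m1, hm1a, hm1b, hm1c⟩ := d.beta (fun _ => true)
  obtain ⟨m2, hm2a, hm2b, hm2c⟩ := d.beta (fun _ => false)
  rw [hPr] at hm1a hm2a hm1c hm2c
  have h1 := hm1b q0 hq0
  have h2 := hm2b q0 hq0
  have hF1 := d.exact_norm hq0 hT hr hD hsp true m1 h1 hm1c
  have hF2 := d.exact_norm hq0 hT hr hD hsp false m2 h2 hm2c
  have hne0 : d.e ≠ 0 := by have := d.he; omega
  have hne : m1 ≠ m2 := by
    rintro rfl
    exact d.not_both m1 hq0 true ((dvd_pow_self _ hne0).trans h1) ((dvd_pow_self _ hne0).trans h2)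
  obtain ⟨k, hk⟩ := (d.local_sum hq0 true m1 m2 h1 h2).1
  set A : ℤ := (q0 : ℤ) ^ d.e with hA
  have hA4 : (4 : ℤ) ≤ A := by
    have : 4 ≤ q0 ^ d.e := by
      calc 4 = 2 ^ 2 := by norm_num
        _ ≤ q0 ^ 2 := Nat.pow_le_pow_left hqp.two_le 2
        _ ≤ q0 ^ d.e := Nat.pow_le_pow_right hqp.pos d.he
    rw [hA]
    exact_mod_cast this
  have hDpos := d.D_pos
  -- positivity of the sum
  have hsumpos : 0 < m1 + m2 + d.q.t := by
    have h3 := d.Pr_small
    rw [hPr] at h3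
    set s := Real.sqrt d.q.D with hs
    have hDR : (0 : ℝ) < d.q.D := by exact_mod_cast hDpos
    have hs2 : s ^ 2 = d.q.D := Real.sq_sqrt hDR.le
    have hspos : 0 < s := Real.sqrt_pos.2 hDR
    have h4 : 2 * (((q0 ^ d.f : ℕ) : ℤ) : ℝ) < s := by
      have h5 : (4 * (((q0 ^ d.f : ℕ) : ℤ) : ℝ) ^ 2) < d.q.D := by exact_mod_cast h3
      rw [← hs2] at h5
      have h6 : (0 : ℝ) ≤ (((q0 ^ d.f : ℕ) : ℤ) : ℝ) := by positivity
      nlinarith
    rw [abs_lt] at hm1a hm2a
    have h5 : (0 : ℝ) < ((2 * (m1 + m2 + d.q.t) : ℤ) : ℝ) := by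
      push_cast at hm1a hm2a h4 ⊢
      linarith [hm1a.1, hm2a.1]
    have h6 : 0 < 2 * (m1 + m2 + d.q.t) := by exact_mod_cast h5
    omega
  have hkpos : 0 < k := by
    by_contra hcon
    push Not at hcon
    have : A * k ≤ 0 := mul_nonpos_of_nonneg_of_nonpos (by omega) hcon
    omega
  have hdiff : (m2 ^ 2 + d.q.t * m2 + d.q.n) - (m1 ^ 2 + d.q.t * m1 + d.q.n)
      = (m2 - m1) * (A * k) := by rw [← hk]; ring
  have hF1' := eq_or_eq_neg_of_abs_eq hF1
  have hF2' := eq_or_eq_neg_of_abs_eq hF2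
  have hy : (m2 - m1) ≠ 0 := by omega
  have hAk : A * k ≠ 0 := by positivity
  have hprodne : (m2 - m1) * (A * k) ≠ 0 := mul_ne_zero hy hAk
  have hopp : (m2 ^ 2 + d.q.t * m2 + d.q.n) + (m1 ^ 2 + d.q.t * m1 + d.q.n) = 0 := by
    rcases hF1' with h3 | h3 <;> rcases hF2' with h4 | h4
    · exfalso; apply hprodne; rw [← hdiff, h3, h4]; ring
    · rw [h3, h4]; ring
    · rw [h3, h4]; ring
    · exfalso; apply hprodne; rw [← hdiff, h3, h4]; ring
  have habs : |m2 - m1| * k = 2 := by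
    have h3 : |(m2 - m1) * (A * k)| = 2 * A := by
      rw [← hdiff]
      rcases hF1' with h3 | h3 <;> rcases hF2' with h4 | h4
      · exfalso; apply hprodne; rw [← hdiff, h3, h4]; ring
      · rw [h3, h4, show -A - A = -(2 * A) by ring, abs_neg, abs_of_pos (by omega)]
      · rw [h3, h4, show A - -A = 2 * A by ring, abs_of_pos (by omega)]
      · exfalso; apply hprodne; rw [← hdiff, h3, h4]; ring
    rw [abs_mul, abs_mul, abs_of_pos (by omega : 0 < A), abs_of_pos hkpos] at h3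
    have h4 : A * (|m2 - m1| * k) = A * 2 := by linarith
    exact mul_left_cancel₀ (by omega) h4
  have hDeq : d.q.D = (A * k) ^ 2 + (m2 - m1) ^ 2 := by
    rw [← hk]
    have : d.q.D = d.q.t ^ 2 - 4 * d.q.n := rfl
    rw [this]
    linear_combination (-2) * hopp
  have hr2 : (2 : ℤ) ≤ r := by exact_mod_cast hr.two_le
  rw [hD, ← sq_abs (m2 - m1)] at hDeq
  have hk2 : k = 1 ∨ k = 2 := by
    have h3 : k ∣ 2 := ⟨|m2 - m1|, by rw [← habs]; ring⟩
    have h4 := Int.le_of_dvd (by norm_num) h3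
    omega
  rcases hk2 with rfl | rfl
  · have h3 : |m2 - m1| = 2 := by linarith
    rw [h3] at hDeq
    have h4 : (2 * (r : ℤ) - A) * (2 * r + A) = 3 := by linarith
    have h5 : 0 < 2 * (r : ℤ) - A := by
      by_contra hcon
      push Not at hcon
      have : (2 * (r : ℤ) - A) * (2 * r + A) ≤ 0 := mul_nonpos_of_nonpos_of_nonneg hcon (by omega)
      omega
    nlinarith
  · have h3 : |m2 - m1| = 1 := by linarith
    rw [h3] at hDeq
    have h4 : (r : ℤ) ^ 2 = A ^ 2 := by linarith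
    have h5 : (r : ℤ) = A := by
      rcases sq_eq_sq_iff_eq_or_eq_neg.1 h4 with h | h
      · exact h
      · omega
    exact pow_not_prime (q0 := q0) d.he hr (by rw [hA] at h5; exact_mod_cast h5.symm)

end Data

end Pool.Agent.H24.Cls
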