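import Mathlib
import Pool.Agent.H24.Cls.Special
import Pool.Agent.H24.Cls.Mink

namespace Pool.Agent.H24.Cls

open Ideal Finset NumberField

theorem mkData (K : Type*) [Field K] [NumberField K] (hdeg : Module.finrank ℚ K = 2)
    (hreal : 0 < discr K) (hh : 1 < classNumber K) (q : Quad (𝓞 K)) (hq : q.D = discr K)
    (T : Finset ℕ)
    (hT : ∀ p ∈ T, p.Prime ∧ ¬ (span {(p : 𝓞 K)}).IsPrime ∧ 4 * (p : ℤ) ^ 2 < discr K)
    (hgen : ∀ I : Ideal (𝓞 K), Prime I → ∀ l : ℕ, l.Prime → absNorm I = l →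
      ¬ (span {(l : 𝓞 K)}).IsPrime → 4 * (l : ℤ) ^ 2 < discr K → I ∣ span {(l : 𝓞 K)} →
      l ∉ T → cl I = 1)
    (hcard : classNumber K = Monoid.exponent (ClassGroup (𝓞 K)) ^ #T) :
    ∃ d : Data (𝓞 K), d.T = T ∧ d.q = q := by
  classical
  have hsplit : ∀ p ∈ T, ∃ P P' : Ideal (𝓞 K), span {(p : 𝓞 K)} = P * P' ∧ absNorm P = p ∧
      absNorm P' = p := fun p hp => q.split (hT p hp).1 (hT p hp).2.1
  let P : Bool → ℕ → Ideal (𝓞 K) := fun b p =>
    if hp : p ∈ T then (if b then (hsplit p hp).choose else (hsplit p hp).choose_spec.choose)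
    else ⊤
  have hPt : ∀ p (hp : p ∈ T), P true p = (hsplit p hp).choose := by
    intro p hp; simp only [P]; rw [dif_pos hp]; simp
  have hPf : ∀ p (hp : p ∈ T), P false p = (hsplit p hp).choose_spec.choose := by
    intro p hp; simp only [P]; rw [dif_pos hp]; simp
  have hspan : ∀ p ∈ T, span {(p : 𝓞 K)} = P true p * P false p := by
    intro p hp
    rw [hPt p hp, hPf p hp]
    exact (hsplit p hp).choose_spec.choose_spec.1
  have hnorm : ∀ p ∈ T, ∀ b, absNorm (P b p) = p := by
    intro p hp b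
    cases b
    · rw [hPf p hp]; exact (hsplit p hp).choose_spec.choose_spec.2.2
    · rw [hPt p hp]; exact (hsplit p hp).choose_spec.choose_spec.2.1
  refine ⟨⟨q, T, P, fun p hp => (hT p hp).1, hspan, hnorm, ?_, ?_, ?_,
    Monoid.exponent (ClassGroup (𝓞 K)), ?_, ?_, ?_, ?_⟩, rfl, rfl⟩
  · intro p hp
    rw [hq]; exact (hT p hp).2.2
  · intro I hI hN
    rw [hq] at hN
    obtain ⟨l, hl, h | h⟩ := q.prime_cases hI
    · obtain ⟨h1, h2, h3⟩ := h
      rw [h1] at hN
      by_cases hlT : l ∈ T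
      · right
        refine ⟨l, hlT, ?_⟩
        have hPp : ∀ b, Prime (P b l) := fun b => prime_of_absNorm hl (hnorm l hlT b)
        rw [hspan l hlT] at h3
        rcases hI.dvd_or_dvd h3 with h4 | h4
        · exact ⟨true, associated_iff_eq.1 ((hI.dvd_prime_iff_associated (hPp true)).1 h4)⟩
        · exact ⟨false, associated_iff_eq.1 ((hI.dvd_prime_iff_associated (hPp false)).1 h4)⟩
      · left
        exact hgen I hI l hl h1 h2 hN h3 hlT
    · left
      rw [h.1]; exact cl_span _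
  · intro C
    rw [hq]
    exact minkowski K hdeg hreal C
  · -- exponent at least 2
    have h0 : Monoid.exponent (ClassGroup (𝓞 K)) ≠ 0 := Monoid.exponent_ne_zero_of_finite
    have h1 : Monoid.exponent (ClassGroup (𝓞 K)) ≠ 1 := by
      intro h
      rw [h, one_pow] at hcard
      omega
    omega
  · intro C
    exact Monoid.pow_exponent_eq_one C
  · infer_instance
  · rw [← hcard, classNumber, Nat.card_eq_fintype_card]

/-- if `D = 4 l ^ 2 + 1` then the prime ideals above `l` are principal -/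
theorem principal_above {R : Type*} [CommRing R] [IsDedekindDomain R] [Module.Free ℤ R]
    [Module.Finite ℤ R] (q : Quad R) {l : ℕ} (hl : l.Prime) (hD : q.D = 4 * (l : ℤ) ^ 2 + 1)
    {I : Ideal R} (hI : Prime I) (hdvd : I ∣ span {(l : R)}) : cl I = 1 := by
  have hD' : q.t ^ 2 - 4 * q.n = 4 * (l : ℤ) ^ 2 + 1 := hD
  have hodd : q.t % 2 = 1 := by
    rcases Int.emod_two_eq_zero_or_one q.t with h | h
    · exfalso
      obtain ⟨j, hj⟩ := Int.dvd_of_emod_eq_zero h
      rw [hj] at hD'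
      have : 4 * (j ^ 2 - q.n - (l : ℤ) ^ 2) = 1 := by linarith
      omega
    · exact h
  obtain ⟨j, hj⟩ : ∃ j, q.t = 2 * j + 1 := ⟨q.t / 2, by omega⟩
  set m : ℤ := l - j with hm
  have hF : m ^ 2 + q.t * m + q.n = l := by
    have h1 : 4 * (m ^ 2 + q.t * m + q.n) = 4 * l := by
      have : 4 * (m ^ 2 + q.t * m + q.n) = (2 * m + q.t) ^ 2 - (q.t ^ 2 - 4 * q.n) := by ring
      rw [this, hD', hm, hj]; ring
    omega
  have hprod : (q.w + (m : R)) * ((q.t : R) - q.w + (m : R)) = (l : R) := by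
    have h1 : ((m ^ 2 + q.t * m + q.n : ℤ) : R) = ((l : ℤ) : R) := by rw [hF]
    push_cast at h1
    linear_combination h1 - q.eqn
  have hN1 : absNorm (span {q.w + (m : R)}) = l := by
    rw [norm_w, hF]; simp
  have hN2 : absNorm (span {(q.t : R) - q.w + (m : R)}) = l := by
    have h1 := q.absNorm_natCast l
    rw [← hprod, ← span_singleton_mul_span_singleton, map_mul, hN1, sq] at h1
    exact Nat.eq_of_mul_eq_mul_left hl.pos h1
  rw [← hprod, ← span_singleton_mul_span_singleton] at hdvd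
  rcases hI.dvd_or_dvd hdvd with h | h
  · have := associated_iff_eq.1 ((hI.dvd_prime_iff_associated (prime_of_absNorm hl hN1)).1 h)
    rw [this]; exact cl_span _
  · have := associated_iff_eq.1 ((hI.dvd_prime_iff_associated (prime_of_absNorm hl hN2)).1 h)
    rw [this]; exact cl_span _

end Pool.Agent.H24.Cls
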